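import Pool.Agent.TH183.QI.Int
import Pool.Agent.TH176.Nag.Limit

/-! Independence of conditions: the limit of the staircase. -/

namespace Pool.Agent.TH183.QI

open Finset Pool.Agent.TH176.Nag Pool.Agent.TH181.NagM

/-- the chart polygon in lattice coordinates -/
def Q3F (N t : ℕ) (F : ℤ) : Set (ℤ × ℤ) :=
  {p | 0 ≤ p.2 ∧ p.2 ≤ (N - 2) * p.1 + F ∧
    ((N - 2) * p.1 + F) * gs N t ^ 2 + p.2 * (gs N (t + 1) ^ 2 - gs N t ^ 2) ≤
      F * (gs N t * gs N (t + 1))}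

theorem Q3F_lat {N : ℕ} (hN : 3 ≤ N) (t F : ℕ) : ∃ f0 f1 f2 f3 u v : ℤ, 0 < f0 * f3 - f1 * f2 ∧
    (∀ p ∈ Q3F N (t + 2) F, (f0 * p.1 + f1 * p.2 + u, f2 * p.1 + f3 * p.2 + v) ∈ S3F N (t + 2) F) ∧
    ∀ m ∈ S3F N (t + 2) F, ∃ p ∈ Q3F N (t + 2) F, m = (f0 * p.1 + f1 * p.2 + u, f2 * p.1 + f3 * p.2 + v) := by
  have hN' : (3 : ℤ) ≤ N := by exact_mod_cast hN
  obtain ⟨c, hc⟩ := (gs_mod (N := (N : ℤ)) (t + 1)).1
  obtain ⟨a, ha⟩ := (gs_mod (N := (N : ℤ)) (t + 2)).1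
  obtain ⟨b, hb⟩ := (gs_mod (N := (N : ℤ)) (t + 2)).2
  have hrec1 : gs N (t + 1 + 2) = N * gs N (t + 1 + 1) - gs N (t + 1) := gs_two (t + 1)
  have hrec2 : gs N (t + 2 + 2) = N * gs N (t + 2 + 1) - gs N (t + 2) := gs_two (t + 2)
  have hmk := gs_markov (N := (N : ℤ)) (t + 2)
  set g0 := gs N (t + 1) with hg0
  set g1 := gs N (t + 2) with hg1
  set g2 := gs N (t + 3) with hg2
  set g3 := gs N (t + 4) with hg3
  have hrec1' : g2 = N * g1 - g0 := hrec1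
  have hrec2' : g3 = N * g2 - g1 := hrec2
  have hmk' : g1 ^ 2 + g2 ^ 2 + (N - 2) = N * g1 * g2 := hmk
  have hb' : g2 - 1 = (N - 2) * b := hb
  -- (g2 - g0)/M and (g3 - g1)/M
  obtain ⟨f1, hf1⟩ : ∃ f1 : ℤ, g2 - g0 = (N - 2) * f1 := ⟨b - c, by linear_combination hb' - hc⟩
  obtain ⟨f2, hf2⟩ : ∃ f2 : ℤ, g3 - g1 = (N - 2) * f2 := by
    refine ⟨(N : ℤ) * b + 1 - 2 * a, ?_⟩
    rw [hrec2']
    linear_combination (N : ℤ) * hb' - 2 * ha
  have hδ : g2 - g1 = (N - 2) * (b - a) := by linear_combination hb' - ha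
  have hδ0 : g1 - g0 = (N - 2) * (a - c) := by linear_combination ha - hc
  have hM : (0 : ℤ) < N - 2 := by omega
  have hp1 : g0 * g2 = g1 ^ 2 + (N - 2) := by rw [hrec1']; rw [hrec1'] at hmk'; linear_combination -hmk'
  have hp2 : g1 * g3 = g2 ^ 2 + (N - 2) := by rw [hrec2']; linear_combination -hmk'
  have hdet : g0 * f2 - f1 * g1 = N := by
    have : (N - 2 : ℤ) * (g0 * f2 - f1 * g1) = (N - 2) * N := by
      linear_combination -g0 * hf2 + g1 * hf1 + g0 * hrec2' + N * hp1 - g1 * hrec1'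
    exact mul_left_cancel₀ hM.ne' this
  -- the point for given p
  have key : ∀ p1 p2 : ℤ,
      (N : ℤ) * ((b - a) * (F * g1 - p2 * (g1 + g2)) - p1 * g1 ^ 2) +
        (g0 * p1 + f1 * p2 + -((a - c) * F)) * g1 + (g1 * p1 + f2 * p2 + -((b - a) * F)) * g2 = F ∧
      (g0 * p1 + f1 * p2 + -((a - c) * F)) * g2 + ((b - a) * (F * g1 - p2 * (g1 + g2)) - p1 * g1 ^ 2) =
        (N - 2) * p1 + F - p2 ∧
      (g1 * p1 + f2 * p2 + -((b - a) * F)) * g1 + ((b - a) * (F * g1 - p2 * (g1 + g2)) - p1 * g1 ^ 2) = p2 ∧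
      ((N : ℤ) - 2) * ((b - a) * (F * g1 - p2 * (g1 + g2)) - p1 * g1 ^ 2) =
        F * (g1 * g2) - ((N - 2) * p1 + F) * g1 ^ 2 - p2 * (g2 ^ 2 - g1 ^ 2) := by
    intro p1 p2
    have q2 : (g0 * p1 + f1 * p2 + -((a - c) * F)) * g2 + ((b - a) * (F * g1 - p2 * (g1 + g2)) - p1 * g1 ^ 2) =
        (N - 2) * p1 + F - p2 := by
      apply mul_left_cancel₀ hM.ne'
      linear_combination ((N : ℤ) - 2) * p1 * hp1 + (-p2 * g2) * hf1 + F * g2 * hδ0 + (p2 * (g1 + g2) - F * g1) * hδ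
        + (F - p2) * hp1
    have q3 : (g1 * p1 + f2 * p2 + -((b - a) * F)) * g1 + ((b - a) * (F * g1 - p2 * (g1 + g2)) - p1 * g1 ^ 2) = p2 := by
      apply mul_left_cancel₀ hM.ne'
      linear_combination (-p2 * g1) * hf2 + p2 * (g1 + g2) * hδ + p2 * hp2
    have q4 : ((N : ℤ) - 2) * ((b - a) * (F * g1 - p2 * (g1 + g2)) - p1 * g1 ^ 2) =
        F * (g1 * g2) - ((N - 2) * p1 + F) * g1 ^ 2 - p2 * (g2 ^ 2 - g1 ^ 2) := by
      linear_combination (p2 * (g1 + g2) - F * g1) * hδ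
    refine ⟨?_, q2, q3, q4⟩
    -- multiply by g1 g2
    have hg1p := gs_pos hN' (t + 2)
    have hg2p := gs_pos hN' (t + 3)
    have hne : g1 * g2 ≠ 0 := (mul_pos hg1p hg2p).ne'
    apply mul_left_cancel₀ hne
    generalize (b - a) * (F * g1 - p2 * (g1 + g2)) - p1 * g1 ^ 2 = l at *
    generalize g0 * p1 + f1 * p2 + -((a - c) * F) = m1 at *
    generalize g1 * p1 + f2 * p2 + -((b - a) * F) = m2 at *
    linear_combination g1 ^ 2 * q2 + g2 ^ 2 * q3 + q4 - l * hmk'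
  refine ⟨g0, f1, g1, f2, -((a - c) * F), -((b - a) * F), by linarith, ?_, ?_⟩
  · rintro ⟨p1, p2⟩ ⟨h1, h2, h3⟩
    simp only at h1 h2 h3
    obtain ⟨k1, k2, k3, k4⟩ := key p1 p2
    refine ⟨(b - a) * (F * g1 - p2 * (g1 + g2)) - p1 * g1 ^ 2, ?_, ?_, ?_, ?_⟩
    · have h3' : ((N - 2) * p1 + F) * g1 ^ 2 + p2 * (g2 ^ 2 - g1 ^ 2) ≤ F * (g1 * g2) := h3
      have : 0 ≤ ((N : ℤ) - 2) * ((b - a) * (F * g1 - p2 * (g1 + g2)) - p1 * g1 ^ 2) := by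
        rw [k4]; linarith
      exact nonneg_of_mul_nonneg_right this hM
    · exact k1
    · show 0 ≤ (g0 * p1 + f1 * p2 + -((a - c) * F)) * g2 + ((b - a) * (F * g1 - p2 * (g1 + g2)) - p1 * g1 ^ 2)
      rw [k2]; linarith
    · show 0 ≤ (g1 * p1 + f2 * p2 + -((b - a) * F)) * g1 + ((b - a) * (F * g1 - p2 * (g1 + g2)) - p1 * g1 ^ 2)
      rw [k3]; exact h1
  · rintro m ⟨l, hl0, hl1, hl2, hl3⟩
    have hl1' : (N : ℤ) * l + m.1 * g1 + m.2 * g2 = F := hl1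
    have hl2' : 0 ≤ m.1 * g2 + l := hl2
    have hl3' : 0 ≤ m.2 * g1 + l := hl3
    have hα : ((N : ℤ) - 2) * (-l + (m.1 - m.2) * (b - a)) + F = m.1 * g2 + 2 * l + m.2 * g1 := by
      linear_combination -hl1' - (m.1 - m.2) * hδ
    refine ⟨(-l + (m.1 - m.2) * (b - a), m.2 * g1 + l), ⟨hl3', ?_, ?_⟩, ?_⟩
    · show m.2 * g1 + l ≤ ((N : ℤ) - 2) * (-l + (m.1 - m.2) * (b - a)) + F
      rw [hα]; linarith
    · show (((N : ℤ) - 2) * (-l + (m.1 - m.2) * (b - a)) + F) * g1 ^ 2 +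
        (m.2 * g1 + l) * (g2 ^ 2 - g1 ^ 2) ≤ F * (g1 * g2)
      rw [hα]
      have e1 : (m.1 * g2 + 2 * l + m.2 * g1) * g1 ^ 2 + (m.2 * g1 + l) * (g2 ^ 2 - g1 ^ 2) =
          F * (g1 * g2) - (N - 2) * l := by
        linear_combination g1 * g2 * hl1' + l * hmk'
      rw [e1]
      nlinarith
    · ext
      · simp only
        apply mul_left_cancel₀ hM.ne'
        linear_combination (-g0) * hα + (m.2 * g1 + l) * hf1 - m.1 * hp1 - l * hrec1' - g1 * hl1' - F * hδ0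
      · simp only
        apply mul_left_cancel₀ hM.ne'
        linear_combination (-g1) * hα + (m.2 * g1 + l) * hf2 - m.2 * hp2 - l * hrec2' - g2 * hl1' - F * hδ

variable {P : ℕ → Set (ℤ × ℤ) → Prop} {C : ℕ}

/-- from the chart polygon to the weighted plane -/
theorem Ind.Q3F (hP : IndSys P) {N : ℕ} (hN : 3 ≤ N) (t F : ℕ) (h : Ind P C (Q3F N (t + 2) F)) :
    Ind P C (WPF N F) := by
  obtain ⟨h1, h2, h3⟩ := h
  obtain ⟨f0, f1, f2, f3, u, v, hdet, hmap, hsur⟩ := Q3F_lat hN t F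
  have h4 := hP.chart hN (hP.mono (hP.sub h3 f0 f1 f2 f3 u v hdet) hsur)
  have h5 : (QI.Q3F N (t + 2) F).ncard ≤ (S3F N (t + 2) F).ncard := by
    apply Set.ncard_le_ncard_of_injOn (fun p : ℤ × ℤ => (f0 * p.1 + f1 * p.2 + u, f2 * p.1 + f3 * p.2 + v))
      hmap _ (S3F_finite hN _ _)
    intro p _ p' _ h
    simp only [Prod.mk.injEq] at h
    obtain ⟨e1, e2⟩ := h
    have a1 : (f0 * f3 - f1 * f2) * (p.1 - p'.1) = 0 := by linear_combination f3 * e1 - f1 * e2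
    have a2 : (f0 * f3 - f1 * f2) * (p.2 - p'.2) = 0 := by linear_combination f0 * e2 - f2 * e1
    have b1 := (mul_eq_zero.1 a1).resolve_left hdet.ne'
    have b2 := (mul_eq_zero.1 a2).resolve_left hdet.ne'
    ext
    · linarith
    · linarith
  have h6 := S3F_card hN (t + 2) F
  exact ⟨WPF_finite hN F, by omega, hP.le h4 (by omega)⟩

/-- the interior points of the limit triangle lie in the chart polygons -/
theorem IReg_sub_Q3F {N : ℕ} (hN : 3 ≤ N) {ω X β : ℝ} {t : ℕ} {F : ℤ} (hω : 0 < ω)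
    (hω2 : ω ^ 2 + 1 = N * ω)
    (h1 : ((gs N (t + 1) : ℤ) : ℝ) ≤ ω * (gs N t : ℤ))
    (h2 : ω * X * (gs N t : ℤ) ≤ (F + N) * (gs N (t + 1) : ℤ)) (hβ : β * (N - 2) = X * ω - (F + 2))
    {m : ℤ × ℤ} (hm : (m.1, m.2 + 1) ∈ IReg (-(F + 2) / (N - 2)) β (1 / (N - 2)) ((ω ^ 2 - 1) / (N - 2))) :
    m ∈ QI.Q3F N t F := by
  obtain ⟨hb, hl, hr⟩ := hm
  simp only at hb hl hr
  have hN' : (3 : ℤ) ≤ N := by exact_mod_cast hN
  have hg := gs_pos hN' t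
  have hg' := gs_pos hN' (t + 1)
  have hM : (0 : ℝ) < (N : ℝ) - 2 := by
    have : (3 : ℝ) ≤ N := by exact_mod_cast hN
    linarith
  obtain ⟨g, hgd⟩ : ∃ g : ℤ, g = gs N t := ⟨_, rfl⟩
  obtain ⟨g', hgd'⟩ : ∃ g' : ℤ, g' = gs N (t + 1) := ⟨_, rfl⟩
  rw [← hgd] at h1 h2 hg
  rw [← hgd'] at h1 h2 hg'
  have hgR : (0 : ℝ) < g := by exact_mod_cast hg
  have hgR' : (0 : ℝ) < g' := by exact_mod_cast hg'
  push_cast at hl hr
  have hl' : -((F : ℝ) + 2) + (m.2 + 1) < (N - 2) * m.1 := by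
    have e1 : -((F : ℝ) + 2) / (N - 2) + 1 / (N - 2) * (m.2 + 1) = (-((F : ℝ) + 2) + (m.2 + 1)) / (N - 2) := by ring
    rw [e1, div_lt_iff₀ hM] at hl
    linarith
  have hr' : ((N : ℝ) - 2) * m.1 < X * ω - (F + 2) - (ω ^ 2 - 1) * (m.2 + 1) := by
    have e1 : (β - (ω ^ 2 - 1) / (N - 2) * (m.2 + 1)) * (N - 2) = X * ω - (F + 2) - (ω ^ 2 - 1) * (m.2 + 1) := by
      rw [← hβ]
      field_simp
    rw [← e1, mul_comm]
    exact mul_lt_mul_of_pos_right hr hM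
  have hb' : 0 ≤ m.2 := by omega
  refine ⟨hb', ?_, ?_⟩
  · have : ((m.2 : ℤ) : ℝ) - 1 < (N - 2) * m.1 + F := by linarith
    have h3 : m.2 - 1 < ((N : ℤ) - 2) * m.1 + F := by exact_mod_cast this
    omega
  · rw [← hgd, ← hgd']
    have hbR : (0 : ℝ) ≤ m.2 := by exact_mod_cast hb'
    have k1 : (((N : ℝ) - 2) * m.1 + F) * g ^ 2 ≤ (X * ω - 2 - (ω ^ 2 - 1) * (m.2 + 1)) * g ^ 2 :=
      mul_le_mul_of_nonneg_right (by linarith) (by positivity)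
    have k2 : g * (ω * X * g) ≤ g * ((F + N) * g') := mul_le_mul_of_nonneg_left h2 hgR.le
    have k3 : 0 ≤ (m.2 : ℝ) * (ω ^ 2 * g ^ 2 - g' ^ 2) := by
      apply mul_nonneg hbR
      nlinarith
    have k4 : 0 ≤ (N : ℝ) * g * (ω * g - g') := by
      apply mul_nonneg (by positivity)
      linarith
    have k5 : (((N : ℝ) - 2) * m.1 + F) * g ^ 2 + m.2 * (g' ^ 2 - g ^ 2) ≤ F * (g * g') := by
      have e : (X * ω - 2 - (ω ^ 2 - 1) * (m.2 + 1)) * g ^ 2 + m.2 * (g' ^ 2 - g ^ 2) =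
          g * (ω * X * g) - N * g * (ω * g) - m.2 * (ω ^ 2 * g ^ 2 - g' ^ 2) := by
        linear_combination (-(g : ℝ) ^ 2) * hω2
      nlinarith
    exact_mod_cast k5

/-- from the limit triangle to the right triangle with integral slope -/
theorem Ind.lim (hP : IndSys P) (hC : 0 < C) {M : ℕ} (hM : 1 ≤ M) {ω : ℝ} (hω : 2 ≤ ω)
    (hω2 : ω ^ 2 + 1 = (M + 2) * ω) {E E' : ℝ} (hE' : 0 < E') (hE : E' < E) (α : ℝ)
    (h : ∀ α : ℝ, Ind P C (IReg α (α + E' * √(1 / (M : ℝ) + (ω ^ 2 - 1) / M)) (1 / M) ((ω ^ 2 - 1) / M))) :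
    Ind P C (IReg α (α + E * √(0 + (M : ℝ))) 0 M) := by
  have hM' : (0 : ℝ) < M := by exact_mod_cast hM
  have hs : 0 < √(M : ℝ) := Real.sqrt_pos.2 hM'
  have hs2 : √(M : ℝ) * √M = M := Real.mul_self_sqrt hM'.le
  have hsq : √(1 / (M : ℝ) + (ω ^ 2 - 1) / M) = ω / √(M : ℝ) := by
    have : (1 / (M : ℝ) + (ω ^ 2 - 1) / M) = ω ^ 2 / M := by field_simp; ring
    rw [this, Real.sqrt_div (sq_nonneg _), Real.sqrt_sq (by linarith)]
  rw [hsq] at h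
  rw [zero_add]
  -- the weighted degree
  obtain ⟨F, hF⟩ : ∃ F : ℤ, F = ⌈α + E * √(M : ℝ)⌉ - ⌊α⌋ - M - 2 := ⟨_, rfl⟩
  have hFR : (F : ℝ) = ⌈α + E * √(M : ℝ)⌉ - ⌊α⌋ - M - 2 := by rw [hF]; push_cast; ring
  have hF1 : E * √(M : ℝ) ≤ F + (M + 2) := by
    have h1 := Int.le_ceil (α + E * √(M : ℝ))
    have h2 := Int.floor_le α
    rw [hFR]
    linarith
  have hF2 : E' * √(M : ℝ) < F + (M + 2) := lt_of_lt_of_le (mul_lt_mul_of_pos_right hE hs) hF1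
  have hN : 3 ≤ M + 2 := by omega
  have hNc : ((M + 2 : ℕ) : ℝ) = M + 2 := by push_cast; ring
  have hω2' : ω ^ 2 + 1 = ((M + 2 : ℕ) : ℝ) * ω := by rw [hNc]; exact hω2
  obtain ⟨t, ht, h1, h2⟩ := gs_ratio hN hω hω2' (e := E' * √(M : ℝ)) (E := F + ((M + 2 : ℕ) : ℝ))
    (by rw [hNc]; exact hF2) (by
      rw [hNc]
      have : 0 < E' * √(M : ℝ) := mul_pos hE' hs
      linarith)
  obtain ⟨s, rfl⟩ : ∃ s, t = s + 2 := ⟨t - 2, by omega⟩
  have hsub : ∀ m : ℤ × ℤ, (m.1, m.2 + 1) ∈ IReg (-(F + 2) / M) (-(F + 2) / M + E' * (ω / √(M : ℝ))) (1 / M)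
      ((ω ^ 2 - 1) / M) → m ∈ QI.Q3F (M + 2) (s + 2) F := by
    intro m hm
    have e : ((M + 2 : ℕ) : ℝ) - 2 = M := by rw [hNc]; ring
    refine IReg_sub_Q3F (X := E' * √(M : ℝ)) (β := -(F + 2) / M + E' * (ω / √(M : ℝ))) hN (by linarith) hω2' h1 h2
      ?_ ?_
    · rw [e]
      have e2 : E' * (ω / √(M : ℝ)) * M = E' * √(M : ℝ) * ω := by
        have : E' * (ω / √(M : ℝ)) * M = E' * (ω / √(M : ℝ)) * (√(M : ℝ) * √M) := by rw [hs2]
        rw [this]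
        field_simp
      have e3 : -((F : ℝ) + 2) / M * M = -(F + 2) := div_mul_cancel₀ _ hM'.ne'
      linear_combination e2 + e3
    · rw [e]; exact hm
  have h3 := h (-(F + 2) / M)
  -- the weighted degree is nonnegative
  have hF0 : 0 ≤ F := by
    obtain ⟨k1, k2, -⟩ := h3
    have hne : (IReg (-((F : ℝ) + 2) / M) (-(F + 2) / M + E' * (ω / √(M : ℝ))) (1 / M)
      ((ω ^ 2 - 1) / M)).Nonempty := by
      rw [← Set.ncard_pos k1]
      omega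
    obtain ⟨⟨a, b⟩, hab⟩ := hne
    have h4 := hsub (a, b - 1) (by
      have e : ((a, b - 1 + 1) : ℤ × ℤ) = (a, b) := by ext <;> simp
      rw [e]; exact hab)
    obtain ⟨p1, p2, p3⟩ := h4
    simp only at p1 p2 p3
    have hN' : (3 : ℤ) ≤ ((M + 2 : ℕ) : ℤ) := by exact_mod_cast hN
    have hg := gs_pos hN' (s + 2)
    have hg' := gs_pos hN' (s + 2 + 1)
    have hgg := (gs_pos_mono hN' (s + 2)).2
    have q1 : 0 ≤ ((((M + 2 : ℕ) : ℤ) - 2) * a + F) * gs ((M + 2 : ℕ) : ℤ) (s + 2) ^ 2 :=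
      mul_nonneg (p1.trans p2) (sq_nonneg _)
    have q2 : 0 ≤ (b - 1) * (gs ((M + 2 : ℕ) : ℤ) (s + 2 + 1) ^ 2 - gs ((M + 2 : ℕ) : ℤ) (s + 2) ^ 2) := by
      apply mul_nonneg p1
      nlinarith
    have q3 : 0 ≤ F * (gs ((M + 2 : ℕ) : ℤ) (s + 2) * gs ((M + 2 : ℕ) : ℤ) (s + 2 + 1)) := by linarith
    exact nonneg_of_mul_nonneg_left q3 (mul_pos hg hg')
  obtain ⟨G, hG⟩ := Int.eq_ofNat_of_zero_le hF0
  have hfin : (QI.Q3F (M + 2) (s + 2) F).Finite := by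
    obtain ⟨f0, f1, f2, f3, u, v, hdet, hmap, -⟩ := Q3F_lat hN s G
    rw [hG]
    refine Set.Finite.of_injOn (f := fun p : ℤ × ℤ => (f0 * p.1 + f1 * p.2 + u, f2 * p.1 + f3 * p.2 + v))
      hmap ?_ (S3F_finite hN _ _)
    intro p _ p' _ h
    simp only [Prod.mk.injEq] at h
    obtain ⟨e1, e2⟩ := h
    have a1 : (f0 * f3 - f1 * f2) * (p.1 - p'.1) = 0 := by linear_combination f3 * e1 - f1 * e2
    have a2 : (f0 * f3 - f1 * f2) * (p.2 - p'.2) = 0 := by linear_combination f0 * e2 - f2 * e1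
    have b1 := (mul_eq_zero.1 a1).resolve_left hdet.ne'
    have b2 := (mul_eq_zero.1 a2).resolve_left hdet.ne'
    ext
    · linarith
    · linarith
  have h5 : Ind P C (QI.Q3F (M + 2) (s + 2) F) := by
    refine h3.umap hP 1 0 0 1 0 1 (by norm_num) hfin ?_
    intro m hm
    have e : ((1 * m.1 + 0 * m.2 + 0, 0 * m.1 + 1 * m.2 + 1) : ℤ × ℤ) = (m.1, m.2 + 1) := by
      ext <;> simp
    rw [e] at hm
    exact hsub m hm
  rw [hG] at h5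
  have h6 := Ind.Q3F hP hN s G h5
  refine h6.umap hP 1 0 0 1 (-⌊α⌋ - 1) (-1) (by norm_num) (IReg_finite (by linarith)) ?_
  rintro ⟨a, b⟩ ⟨k1, k2, k3⟩
  simp only at k1 k2 k3
  refine ⟨by simp only; omega, ?_, ?_⟩
  · simp only
    have h7 : ⌊α⌋ + 1 ≤ a := by omega
    have h8 : ((⌊α⌋ : ℤ) : ℝ) + 1 ≤ a := by exact_mod_cast h7
    have := Int.lt_floor_add_one α
    linarith
  · simp only
    have h7 : a + M * b < ⌈α + E * √(M : ℝ)⌉ := by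
      have e1 : (((M + 2 : ℕ) : ℤ) - 2) = M := by push_cast; ring
      rw [e1, ← hG, hF] at k3
      have e2 : (M : ℤ) * (0 * a + 1 * b + -1) = M * b - M := by ring
      rw [e2] at k3
      omega
    have h8 := Int.lt_ceil.1 h7
    push_cast at h8
    linarith

end Pool.Agent.TH183.QI
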