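import Pool.Agent.TH183.QI.Base

/-! From germs at points of the torus to germs at the origin, with additional conditions. -/

namespace Pool.Agent.TH183.QI

open Finset Pool.Agent.TH176.Nag Pool.Agent.TH183.QN

theorem EmpF.of_empW {ι : Type} {t c : ι → ℝ} {S : Set (ℤ × ℤ)} (h : EmpW t c S) : EmpF 0 t c S := by
  obtain ⟨K, _, _, X, Y, hX, hf⟩ := h
  exact ⟨K, _, inferInstance, X, Y, fun j => j.elim0, hX, fun f h1 h2 _ => hf f h1 h2⟩

section lin
variable {K : Type} [Field K]

/-- the functional on forms -/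
noncomputable def lpair (φ : ℤ × ℤ → K) : MvPolynomial (Fin 3) K →ₗ[K] K :=
  (MvPolynomial.basisMonomials (Fin 3) K).constr K (fun s => φ ((s 0 : ℤ), (s 1 : ℤ)))

theorem lpair_apply (φ : ℤ × ℤ → K) (F : MvPolynomial (Fin 3) K) :
    lpair φ F = pair φ (lf F) := by
  have h : F = ∑ m ∈ F.support, MvPolynomial.coeff m F • MvPolynomial.monomial m (1 : K) := by
    conv_lhs => rw [F.as_sum]
    refine Finset.sum_congr rfl fun m _ => ?_
    rw [MvPolynomial.smul_monomial, smul_eq_mul, mul_one]
  have e1 : lpair φ F = ∑ m ∈ F.support, MvPolynomial.coeff m F * φ ((m 0 : ℤ), (m 1 : ℤ)) := by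
    conv_lhs => rw [h]
    rw [map_sum]
    refine Finset.sum_congr rfl fun m _ => ?_
    rw [map_smul, smul_eq_mul]
    congr 1
    unfold lpair
    have := (MvPolynomial.basisMonomials (Fin 3) K).constr_basis K
      (fun s : Fin 3 →₀ ℕ => φ ((s 0 : ℤ), (s 1 : ℤ))) m
    rw [MvPolynomial.coe_basisMonomials] at this
    exact this
  rw [e1]
  unfold lf
  rw [pair_sum]
  exact Finset.sum_congr rfl fun m _ => (pair_single _ _ _).symm

end lin

section
variable {ι : Type} {n : ℕ}

/-- forms instead of Laurent polynomials -/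
theorem EmpF.form {t c : ι → ℝ} {d : ℕ} (h : EmpF n t c (TT d)) :
    ∃ (K : Type) (_ : Field K) (_ : CharZero K) (X Y : ι → PS K)
      (φ : Fin n → (MvPolynomial (Fin 3) K →ₗ[K] K)),
      (∀ i, dl (X i) ≠ 0 ∨ dl (Y i) ≠ 0) ∧
      ∀ F : MvPolynomial (Fin 3) K, F.IsHomogeneous d →
        (∀ i, Wt (t i) (c i) (MvPolynomial.aeval ![X i, Y i, 1] F)) → (∀ j, φ j F = 0) → F = 0 := by
  obtain ⟨K, _, _, X, Y, φ, hX, hf⟩ := h
  refine ⟨K, inferInstance, inferInstance, fun i => X i, fun i => Y i, fun j => lpair (φ j),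
    fun i => ?_, ?_⟩
  · rw [dl_ne_iff, dl_ne_iff]; exact hX i
  · intro F hF hW hφ
    have h1 := hf (lf F) (lf_support hF) (fun i => by rw [ev_lf]; exact hW i) (fun j => by
      rw [← lpair_apply]; exact hφ j)
    by_contra hne
    obtain ⟨s, hs⟩ := (MvPolynomial.support_nonempty).2 hne
    have h2 := lf_apply hF hs
    rw [h1] at h2
    exact (MvPolynomial.mem_support_iff.1 hs) (by rw [← h2]; rfl)

/-- emptiness for graphs of polynomials -/
theorem EmpF.graph [Finite ι] {t c : ι → ℝ} (ht : ∀ i, 1 ≤ t i) {d : ℕ}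
    (h : EmpF n t c (TT d)) :
    ∃ (K : Type) (_ : Field K) (_ : CharZero K) (x y : ι → K) (g : ι → Polynomial K)
      (φ : Fin n → (MvPolynomial (Fin 3) K →ₗ[K] K)),
      (∀ i, (g i).coeff 0 = 0) ∧
      ∀ F : MvPolynomial (Fin 3) K, F.IsHomogeneous d →
        (∀ i, ∀ j l : ℕ, (j : ℝ) + t i * l < c i →
          ((MvPolynomial.aeval ![Polynomial.C (Polynomial.C (x i) + Polynomial.X),
            Polynomial.C (Polynomial.C (y i) + g i) + Polynomial.X, 1] F).coeff l).coeff j = 0) →
        (∀ j, φ j F = 0) → F = 0 := by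
  classical
  obtain ⟨K, _, _, X, Y, φ, hXY, hF⟩ := h.form
  have : Fintype ι := Fintype.ofFinite ι
  obtain ⟨s, hs⟩ := Infinite.exists_notMem_finset (univ.image fun i => -dl (X i) / dl (Y i))
  have hs' : ∀ i, dl (X i) + s * dl (Y i) ≠ 0 := by
    intro i h0
    rcases eq_or_ne (dl (Y i)) 0 with h1 | h1
    · rw [h1, mul_zero, add_zero] at h0
      rcases hXY i with h2 | h2
      · exact h2 h0
      · exact h2 h1
    · apply hs
      rw [mem_image]
      refine ⟨i, mem_univ i, ?_⟩
      rw [div_eq_iff h1]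
      linear_combination -h0
  let x : ι → K := fun i => cc (X i + s • Y i)
  let y : ι → K := fun i => cc (Y i)
  let A : ι → PS K := fun i => X i + s • Y i - MvPowerSeries.C (σ := Fin 2) (x i)
  let B : ι → PS K := fun i => Y i - MvPowerSeries.C (σ := Fin 2) (y i)
  have hA : ∀ i, cc (A i) = 0 := by
    intro i
    simp only [A, x]
    unfold cc
    rw [map_sub, MvPowerSeries.constantCoeff_C, sub_self]
  have hB : ∀ i, cc (B i) = 0 := by
    intro i
    simp only [B, y]
    unfold cc
    rw [map_sub, MvPowerSeries.constantCoeff_C, sub_self]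
  have hA1 : ∀ i, dl (A i) ≠ 0 := by
    intro i
    have h1 : dl (A i) = dl (X i) + s * dl (Y i) := by
      simp only [A]
      rw [sub_eq_add_neg, ← map_neg, dl_add, dl_add, dl_C, add_zero]
      congr 1
    rw [h1]
    exact hs' i
  choose g hg0 hg using fun i => exists_graph (hA i) (hA1 i) (hB i) ⌈t i⌉₊
  refine ⟨K, inferInstance, inferInstance, x, y, g, fun j => (φ j).comp (lin s 0 0).toLinearMap,
    hg0, fun F hFd hW hφ => ?_⟩
  apply lin_eq_zero (l := s) (x := 0) (y := 0)
  apply hF _ (lin_homog _ _ _ hFd) _ hφ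
  intro i
  rw [aeval_lin]
  have e1 : X i + s • Y i - MvPowerSeries.C (σ := Fin 2) (0 : K) = MvPowerSeries.C (σ := Fin 2) (x i) + A i := by
    simp only [A]
    rw [map_zero]
    ring
  have e2 : Y i - MvPowerSeries.C (σ := Fin 2) (0 : K) = MvPowerSeries.C (σ := Fin 2) (y i) + B i := by
    simp only [B]
    rw [map_zero]
    ring
  rw [e1, e2, ← sb_aeval (A i) (B i) (x i) (y i) (g i) F]
  exact sb_Wt (ht i) (hA i) (Wt_of_res (by linarith [ht i]) (Nat.le_ceil _) (hg i)) _ (hW i)

end

/-- the form with given coefficients -/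
noncomputable def frm {K : Type*} [Field K] (d : ℕ) : (QT.exps d → K) →ₗ[K] MvPolynomial (Fin 3) K :=
  Fintype.linearCombination K (fun m : QT.exps d => MvPolynomial.monomial m.1 (1 : K))

theorem frm_apply {K : Type*} [Field K] (d : ℕ) (v : QT.exps d → K) :
    frm d v = ∑ m : QT.exps d, MvPolynomial.monomial m.1 (v m) := by
  unfold frm
  rw [Fintype.linearCombination_apply]
  refine Finset.sum_congr rfl fun m _ => ?_
  rw [MvPolynomial.smul_monomial, smul_eq_mul, mul_one]

theorem frm_homog {K : Type*} [Field K] (d : ℕ) (v : QT.exps d → K) : (frm d v).IsHomogeneous d := by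
  rw [frm_apply]
  apply MvPolynomial.IsHomogeneous.sum
  intro m _
  exact MvPolynomial.isHomogeneous_monomial _ (QT.mem_exps.1 m.2)

theorem coeff_frm {K : Type*} [Field K] (d : ℕ) (v : QT.exps d → K) (m : QT.exps d) :
    MvPolynomial.coeff m.1 (frm d v) = v m := by
  classical
  rw [frm_apply, MvPolynomial.coeff_sum, Finset.sum_eq_single m]
  · rw [MvPolynomial.coeff_monomial, if_pos rfl]
  · intro m' _ hne
    rw [MvPolynomial.coeff_monomial, if_neg]
    exact fun h => hne (Subtype.ext h)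
  · intro h; exact absurd (Finset.mem_univ m) h

/-- one germ at the origin -/
theorem EmpF.germ {n : ℕ} {t B : ℝ} (ht : 1 ≤ t) {d : ℕ}
    (h : EmpF n (fun _ : Unit => t) (fun _ => B) (TT d)) :
    ∃ (K : Type) (_ : Field K) (_ : CharZero K) (c : ℕ → K)
      (φ : Fin n → ((QT.exps d → K) →ₗ[K] K)),
      ∀ v : QT.exps d → K, (∀ i j : ℕ, (i : ℝ) + t * j < B → ∑ m : QT.exps d, v m * QT.ent c m.1 i j = 0) →
        (∀ j, φ j v = 0) → v = 0 := by
  classical
  obtain ⟨K, _, _, x, y, g, φ, hg0, hF⟩ := EmpF.graph (fun _ => ht) h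
  refine ⟨K, inferInstance, inferInstance, fun k => (g ()).coeff (k + 1),
    fun j => (φ j).comp ((lin 0 (x ()) (y ())).toLinearMap.comp (frm d)), fun v hv hφ => ?_⟩
  have hFd := frm_homog d v
  have hFc := coeff_frm d v
  have h0 : frm d v = 0 := by
    apply lin_eq_zero (l := 0) (x := x ()) (y := y ())
    apply hF _ (lin_homog _ _ _ hFd) _ hφ
    rintro ⟨⟩ j l hjl
    rw [aeval_lin', ← expand_eq (hg0 ()), QT.coeff_expand_form _ hFd]
    rw [← hv j l hjl]
    exact Finset.sum_congr rfl fun m _ => by rw [hFc]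
  funext m
  rw [← hFc m, h0]
  simp

/-- a large minor -/
theorem exists_minor {K : Type*} [Field K] {R σ : Type*} [Fintype σ] [DecidableEq σ] {n N : ℕ}
    (hN : N + n ≤ Fintype.card σ) (v : R → σ → K) (φ : Fin n → ((σ → K) →ₗ[K] K))
    (hker : ∀ c : σ → K, (∀ r, ∑ m, v r m * c m = 0) → (∀ j, φ j c = 0) → c = 0) :
    ∃ (a : Fin N → R) (b : Fin N → σ), (Matrix.of fun i j => v (a i) (b j)).det ≠ 0 := by
  classical
  let v' : R ⊕ Fin n → σ → K := fun r => Sum.elim v (fun j m => φ j (Pi.single m 1)) r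
  obtain ⟨a', ha'⟩ := Pool.Agent.TH15.Nag.exists_rows v' (by
    intro c hc
    apply hker c
    · intro r; exact hc (Sum.inl r)
    · intro j
      have h1 := hc (Sum.inr j)
      simp only [v', Sum.elim_inr] at h1
      have h2 : c = ∑ m, c m • (Pi.single m (1 : K) : σ → K) := by
        funext q
        simp [Finset.sum_apply, Pi.single_apply]
      rw [h2, map_sum, ← h1]
      refine Finset.sum_congr rfl fun m _ => ?_
      rw [map_smul, smul_eq_mul, mul_comm])
  have hli : LinearIndependent K (fun s => v' (a' s)) := by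
    have h1 : IsUnit (Matrix.of fun j m => v' (a' j) m) := by
      rw [Matrix.isUnit_iff_isUnit_det]
      exact isUnit_iff_ne_zero.2 ha'
    rw [← Matrix.linearIndependent_rows_iff_isUnit] at h1
    exact h1
  have hinj : Function.Injective a' := by
    intro s s' h
    apply hli.injective
    show v' (a' s) = v' (a' s')
    rw [h]
  -- the rows of the original matrix
  let L : Finset σ := univ.filter fun s => (a' s).isLeft
  have hL : N ≤ L.card := by
    have h1 : (univ.filter fun s => ¬ (a' s).isLeft = true).card ≤ n := by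
      have h2 : ((univ.filter fun s => ¬ (a' s).isLeft = true).image a') ⊆
          (univ : Finset (Fin n)).map ⟨Sum.inr, Sum.inr_injective⟩ := by
        intro r hr
        rw [mem_image] at hr
        obtain ⟨s, hs, rfl⟩ := hr
        rw [mem_filter] at hs
        cases hr : a' s with
        | inl r => rw [hr] at hs; exact absurd rfl hs.2
        | inr j => simp
      have h3 := card_le_card h2
      rw [card_image_of_injective _ hinj, card_map, card_univ, Fintype.card_fin] at h3
      exact h3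
    have h2 := Finset.card_filter_add_card_filter_not (s := (univ : Finset σ)) (fun s => (a' s).isLeft = true)
    rw [card_univ] at h2
    simp only [L]
    omega
  obtain ⟨e⟩ : Nonempty (Fin N ↪ L) := by
    apply Function.Embedding.nonempty_of_card_le
    rw [Fintype.card_fin, Fintype.card_coe]
    exact hL
  have hex : ∀ i : Fin N, ∃ r : R, a' (e i) = Sum.inl r := by
    intro i
    have h1 := (e i).2
    simp only [L, mem_filter] at h1
    exact Sum.isLeft_iff.1 h1.2
  choose a ha using hex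
  have hli2 : LinearIndependent K (fun i => v (a i)) := by
    have h1 := hli.comp (fun i => (e i : σ)) (by
      intro i j h
      exact e.injective (Subtype.ext h))
    have h2 : (fun s => v' (a' s)) ∘ (fun i => (e i : σ)) = fun i => v (a i) := by
      funext i
      simp only [Function.comp, ha, v', Sum.elim_inl]
    rwa [h2] at h1
  obtain ⟨b, hb⟩ := Pool.Agent.TH15.Nag.exists_rows (fun (m : σ) (i : Fin N) => v (a i) m) (by
    intro c hc
    rw [Fintype.linearIndependent_iff] at hli2
    funext i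
    apply hli2 c
    funext m
    rw [Finset.sum_apply, Pi.zero_apply, ← hc m]
    refine Finset.sum_congr rfl fun i _ => ?_
    rw [Pi.smul_apply, smul_eq_mul, mul_comm])
  refine ⟨a, b, ?_⟩
  rw [← Matrix.det_transpose]
  exact hb

universe u

/-- ranks for germs outside one hypersurface, over all fields of characteristic zero -/
theorem EmpF.generic {n N : ℕ} {t B : ℝ} (ht : 1 ≤ t) {d : ℕ} (hN : N + n ≤ (QT.exps d).card)
    (h : EmpF n (fun _ : Unit => t) (fun _ => B) (TT d)) :
    ∃ (a : Fin N → ℕ × ℕ) (b : Fin N → QT.exps d), (∀ i, ((a i).1 : ℝ) + t * (a i).2 < B) ∧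
      ∃ D : MvPolynomial ℕ ℚ, D ≠ 0 ∧ ∀ (L : Type u) [Field L] [CharZero L] (c : ℕ → L),
        MvPolynomial.aeval c D ≠ 0 → ∀ v : Fin N → L,
          (∀ i, ∑ j, v j * QT.ent c (b j).1 (a i).1 (a i).2 = 0) → v = 0 := by
  classical
  obtain ⟨K, _, _, c0, φ, hc0⟩ := h.germ ht
  obtain ⟨a, b, hab⟩ := exists_minor (N := N)
    (R := {p : ℕ × ℕ // (p.1 : ℝ) + t * p.2 < B}) (σ := QT.exps d)
    (by rw [Fintype.card_coe]; exact hN)
    (fun p m => QT.ent c0 m.1 p.1.1 p.1.2) φ (by
    intro v hv
    apply hc0 v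
    intro i j hij
    rw [← hv ⟨(i, j), hij⟩]
    exact Finset.sum_congr rfl fun m _ => mul_comm _ _)
  let D : MvPolynomial ℕ ℚ := (Matrix.of fun i j : Fin N =>
    QT.ent (fun k => (MvPolynomial.X k : MvPolynomial ℕ ℚ)) (b j).1 (a i).1.1 (a i).1.2).det
  have hD : ∀ {L : Type} [Field L] [CharZero L] (c : ℕ → L), MvPolynomial.aeval c D =
      (Matrix.of fun i j : Fin N => QT.ent c (b j).1 (a i).1.1 (a i).1.2).det := by
    intro L _ _ c
    rw [AlgHom.map_det]
    congr 1
    ext i j
    show (MvPolynomial.aeval c : MvPolynomial ℕ ℚ →ₐ[ℚ] L) (QT.ent _ _ _ _) = _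
    have := QT.map_ent ((MvPolynomial.aeval c : MvPolynomial ℕ ℚ →ₐ[ℚ] L) : MvPolynomial ℕ ℚ →+* L)
      (fun k => (MvPolynomial.X k : MvPolynomial ℕ ℚ)) (b j).1 (a i).1.1 (a i).1.2
    simp only [RingHom.coe_coe, MvPolynomial.aeval_X] at this
    exact this
  have hD' : ∀ {L : Type u} [Field L] [CharZero L] (c : ℕ → L), MvPolynomial.aeval c D =
      (Matrix.of fun i j : Fin N => QT.ent c (b j).1 (a i).1.1 (a i).1.2).det := by
    intro L _ _ c
    rw [AlgHom.map_det]
    congr 1
    ext i j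
    show (MvPolynomial.aeval c : MvPolynomial ℕ ℚ →ₐ[ℚ] L) (QT.ent _ _ _ _) = _
    have := QT.map_ent ((MvPolynomial.aeval c : MvPolynomial ℕ ℚ →ₐ[ℚ] L) : MvPolynomial ℕ ℚ →+* L)
      (fun k => (MvPolynomial.X k : MvPolynomial ℕ ℚ)) (b j).1 (a i).1.1 (a i).1.2
    simp only [RingHom.coe_coe, MvPolynomial.aeval_X] at this
    exact this
  refine ⟨fun i => (a i).1, b, fun i => (a i).2, D, ?_, ?_⟩
  · intro h0
    apply hab
    rw [← hD c0, h0, map_zero]
  · intro L _ _ c hc v hv
    rw [hD' c] at hc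
    apply Matrix.eq_zero_of_mulVec_eq_zero hc
    funext i
    rw [Pi.zero_apply, ← hv i]
    rw [Matrix.mulVec, dotProduct]
    exact Finset.sum_congr rfl fun m _ => mul_comm _ _

end Pool.Agent.TH183.QI
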