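import Pool.Agent.TH183.QI.Lim
import Pool.Agent.TH183.QI.Trans
import Pool.Agent.H932R2.Main

/-! Independence of conditions: all shapes reached by the moves. -/

namespace Pool.Agent.TH183.QI

open Finset Pool.Agent.TH176.Nag Pool.Agent.TH181.NagM Pool.Agent.TH183.QN

variable {P : ℕ → Set (ℤ × ℤ) → Prop} {C : ℕ}

/-- the conditions are independent on the interior of all triangles of the shape `(μ, ν)` of size
greater than `B` -/
def ShI (P : ℕ → Set (ℤ × ℤ) → Prop) (C : ℕ) (B μ ν : ℝ) : Prop :=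
  0 < μ + ν → ∀ E : ℝ, B < E → ∀ α : ℝ, Ind P C (IReg α (α + E * √(μ + ν)) μ ν)

theorem IndSys.closed (hP : IndSys P) (hC : 0 < C) {B : ℝ} (hB : 0 ≤ B) : Closed (ShI P C B) where
  mirror := by
    intro μ ν h hn E hE α
    apply Ind.mirror hP hn
    have h1 := h (by rw [add_comm]; exact hn) E hE (-(α + E * √(μ + ν)))
    rw [add_comm ν μ] at h1
    have e : -(α + E * √(μ + ν)) + E * √(μ + ν) = -α := by ring
    rwa [e] at h1
  shear := by
    intro μ ν k h hn E hE α
    have e : μ + k + (ν - k) = μ + ν := by ring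
    have h1 := h (by rw [e]; exact hn) E hE α
    rw [e] at h1
    exact Ind.shear hP hn k h1
  stepA := by
    intro μ ν u v hc hu h1 h2 hn h _ E hE α
    obtain ⟨p, q, hpq⟩ := hc
    have hy : 0 < (u : ℝ) * μ + v := by
      have hpq' : (p : ℝ) * u + q * v = 1 := by exact_mod_cast hpq
      have hu' : (0 : ℝ) ≤ u := by exact_mod_cast hu
      rcases h1.lt_or_eq with h3 | h3
      · exact h3
      · exfalso
        have h4 : (u : ℝ) * (μ + ν) ≤ 0 := by linarith
        have h5 : (u : ℝ) = 0 := by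
          rcases hu'.lt_or_eq with h6 | h6
          · have := mul_pos h6 hn
            linarith
          · exact h6.symm
        have h6 : (v : ℝ) = 0 := by rw [h5] at h3; linarith
        rw [h5, h6] at hpq'
        norm_num at hpq'
    have e1 : u * (u * μ + v) + (v - u * ν) * (u * μ + v) / (μ + ν) = (u * μ + v) ^ 2 / (μ + ν) := by
      field_simp
      ring
    have h3 := h (by rw [e1]; positivity) E hE (u * α)
    have hs : 0 < √(μ + ν) := Real.sqrt_pos.2 hn
    have hs2 : √(μ + ν) ^ 2 = μ + ν := Real.sq_sqrt hn.le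
    have e2 : √(u * (u * μ + v) + (v - u * ν) * (u * μ + v) / (μ + ν)) = (u * μ + v) / √(μ + ν) := by
      rw [e1, Real.sqrt_div (sq_nonneg _), Real.sqrt_sq h1]
    rw [e2] at h3
    refine Ind.regA hP u v p q (by linarith) hu (by linarith) h2 hn rfl ?_ rfl ?_ h3
    · have e3 : E * ((u * μ + v) / √(μ + ν)) * (μ + ν) = E * (u * μ + v) * √(μ + ν) := by
        have e4 : E * ((u * μ + v) / √(μ + ν)) * (μ + ν) =
            E * ((u * μ + v) / √(μ + ν)) * √(μ + ν) ^ 2 := by rw [hs2]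
        rw [e4]
        field_simp
      linear_combination e3
    · rw [div_mul_cancel₀ _ hn.ne']; ring
  stepC := by
    intro μ ν u v hc hu h1 h2 h hn E hE α
    obtain ⟨p, q, hpq⟩ := hc
    have hu' : (0 : ℝ) ≤ u := by exact_mod_cast hu
    have hu0 : (0 : ℝ) < u := by
      have hpq' : (p : ℝ) * u + q * v = 1 := by exact_mod_cast hpq
      rcases hu'.lt_or_eq with h3 | h3
      · exact h3
      · exfalso
        rw [← h3] at h1 h2 hpq'
        have : (v : ℝ) = 0 := by linarith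
        rw [this] at hpq'
        norm_num at hpq'
    have e1 : u * (u * μ + v) + u * (u * ν - v) = u ^ 2 * (μ + ν) := by ring
    have h3 := h (by rw [e1]; positivity) E hE (u * α)
    have e2 : √(u * (u * μ + v) + u * (u * ν - v)) = u * √(μ + ν) := by
      rw [e1, Real.sqrt_mul (sq_nonneg _), Real.sqrt_sq hu']
    rw [e2] at h3
    refine Ind.regC hP u v p q (by linarith) hu (by linarith) h2 hn rfl ?_ rfl rfl h3
    ring
  lim := by
    intro M hM ω hω hω2 h _ E hE α
    obtain ⟨E', hE1, hE2⟩ := exists_between hE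
    have hM' : (0 : ℝ) < M := by exact_mod_cast hM
    refine Ind.lim hP hC hM hω (by linarith) (lt_of_le_of_lt hB hE1) hE2 α ?_
    have hpos : 0 < 1 / (M : ℝ) + (ω ^ 2 - 1) / M := by
      have : 0 ≤ (ω ^ 2 - 1) / (M : ℝ) := by
        apply div_nonneg _ hM'.le
        nlinarith
      have : 0 < 1 / (M : ℝ) := by positivity
      linarith
    exact fun α => h hpos E' hE1 α

/-- the systems of conditions of quasimonomial valuations -/
theorem EmpF.sys {ι : Type} {tw c : ι → ℝ} (htw : ∀ i, 0 ≤ tw i) : IndSys (fun n S => EmpF n tw c S) where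
  mono h hS := h.mono hS
  le h hn := h.le hn
  add h _ hS := h.add hS
  comap h a b c' d u v hd hS := h.comap htw a b c' d u v hd hS
  sub h p q r s u v hd := h.sub htw p q r s u v hd
  flat0 hb hS h := EmpF.flat0 htw hb hS h
  chart hN h := EmpF.chart htw hN _ _ h

/-- the number of the conditions -/
def cnd (n m : ℕ) : ℕ := n * (m + 1).choose 2

/-- the last step -/
theorem shI_base {ι : Type} [Fintype ι] (tw : ι → ℕ) {n : ℕ} (hn0 : 0 < n) (hn : n = ∑ i, tw i) (m : ℕ) :
    ShI (fun k S => EmpF k (fun i => (tw i : ℝ)) (fun i => (tw i * m : ℝ)) S) (cnd n m) ((m + 1) * √n) 0 n := by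
  classical
  intro _ E hE α
  have hnR : (0 : ℝ) < n := by exact_mod_cast hn0
  have hs : 0 < √(n : ℝ) := Real.sqrt_pos.2 hnR
  have hs2 : √(n : ℝ) * √n = n := Real.mul_self_sqrt hnR.le
  have hE2 : ((m : ℝ) + 1) * n < E * √n := by
    have := mul_lt_mul_of_pos_right hE hs
    rw [mul_assoc, hs2] at this
    exact this
  rw [zero_add]
  have hsys := EmpF.sys (tw := fun i => (tw i : ℝ)) (c := fun i => (tw i * m : ℝ)) (fun i => Nat.cast_nonneg _)
  let G : Finset (ℤ × ℤ) := (Pool.Agent.H932R2.EE n m).image fun p => (⌊α⌋ + 1 + (p.1 : ℤ), (p.2 : ℤ) + 1)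
  have hG : ∀ q ∈ G, ∃ i l : ℕ, l < m ∧ i < n * (m - l) ∧ q = (⌊α⌋ + 1 + (i : ℤ), (l : ℤ) + 1) := by
    intro q hq
    simp only [G, mem_image] at hq
    obtain ⟨⟨i, l⟩, h1, rfl⟩ := hq
    rw [Pool.Agent.H932R2.mem_EE] at h1
    exact ⟨i, l, h1.1, h1.2, rfl⟩
  have hcard : G.card = cnd n m := by
    rw [card_image_of_injective, Pool.Agent.H932R2.card_EE_eq']
    · rfl
    · rintro ⟨i, l⟩ ⟨i', l'⟩ h
      simp only [Prod.mk.injEq] at h
      ext
      · simp only; omega
      · simp only; omega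
  have hw : EmpW (fun i => (tw i : ℝ)) (fun i => (tw i * m : ℝ)) (Reg (⌊α⌋ + 1) (⌊α⌋ + 1 + (n * m - 1 / 2)) 0 n) := by
    apply EmpW.final (fun i => Nat.cast_nonneg _)
    · rw [hn]; push_cast; rfl
    · rw [← sum_mul, hn]
      push_cast
      linarith
  have h0 : Ind (fun k S => EmpF k (fun i => (tw i : ℝ)) (fun i => (tw i * m : ℝ)) S) (cnd n m) (↑G : Set (ℤ × ℤ)) := by
    refine ⟨G.finite_toSet, by rw [Set.ncard_coe_finset, hcard], ?_⟩
    rw [Set.ncard_coe_finset, hcard, Nat.sub_self]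
    refine hsys.comap (EmpF.of_empW hw) 1 0 0 1 0 (-1) (by norm_num) ?_
    intro q hq
    obtain ⟨i, l, hl, hi, rfl⟩ := hG q (mem_coe.1 hq)
    refine ⟨by simp only; omega, ?_, ?_⟩
    · simp only
      push_cast
      have : (0 : ℝ) ≤ i := Nat.cast_nonneg i
      linarith
    · simp only
      push_cast
      have h1 : i + 1 ≤ n * (m - l) := hi
      have h2 : ((i : ℝ) + 1) ≤ n * (m - l) := by
        have : (((i + 1 : ℕ)) : ℝ) ≤ ((n * (m - l) : ℕ) : ℝ) := by exact_mod_cast h1
        push_cast [Nat.cast_sub hl.le] at this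
        exact this
      linarith
  refine h0.mono hsys ?_ (IReg_finite (by simpa using hnR))
  intro q hq
  obtain ⟨i, l, hl, hi, rfl⟩ := hG q (mem_coe.1 hq)
  refine ⟨by simp only; omega, ?_, ?_⟩
  · simp only
    push_cast
    have : (0 : ℝ) ≤ i := Nat.cast_nonneg i
    have := Int.lt_floor_add_one α
    linarith
  · simp only
    push_cast
    have h1 : i + 1 ≤ n * (m - l) := hi
    have h2 : ((i : ℝ) + 1) ≤ n * (m - l) := by
      have : (((i + 1 : ℕ)) : ℝ) ≤ ((n * (m - l) : ℕ) : ℝ) := by exact_mod_cast h1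
      push_cast [Nat.cast_sub hl.le] at this
      exact this
    have := Int.floor_le α
    nlinarith

/-- independence of conditions for all reached right triangles -/
theorem shI_of_Mv {ι : Type} [Fintype ι] (tw : ι → ℕ) {n : ℕ} (hn0 : 0 < n) (hn : n = ∑ i, tw i) {m : ℕ}
    (hm : 0 < m) {μ ν : ℝ} (h : Mv μ ν 0 n) :
    ShI (fun k S => EmpF k (fun i => (tw i : ℝ)) (fun i => (tw i * m : ℝ)) S) (cnd n m) ((m + 1) * √n) μ ν := by
  refine h.closed (IndSys.closed (EmpF.sys fun i => Nat.cast_nonneg _) ?_ (by positivity)) (shI_base tw hn0 hn m)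
  unfold cnd
  exact Nat.mul_pos hn0 (Nat.choose_pos (by omega))

theorem TT_ncard (d : ℕ) : (TT d).Finite ∧ (TT d).ncard = (d + 2).choose 2 := by
  classical
  have h1 : (TT d) = ↑((Pool.Agent.H932R2.Tfin d).image fun p => ((p.1 : ℤ), (p.2 : ℤ))) := by
    ext ⟨a, b⟩
    rw [mem_coe, mem_image]
    constructor
    · rintro ⟨h1, h2, h3⟩
      simp only at h1 h2 h3
      obtain ⟨i, rfl⟩ := Int.eq_ofNat_of_zero_le h1
      obtain ⟨l, rfl⟩ := Int.eq_ofNat_of_zero_le h2
      refine ⟨(i, l), ?_, rfl⟩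
      rw [← mem_coe, Pool.Agent.H932R2.coe_Tfin, Pool.Agent.H932R2.mem_Tset]
      omega
    · rintro ⟨⟨i, l⟩, h1, h2⟩
      rw [← mem_coe, Pool.Agent.H932R2.coe_Tfin, Pool.Agent.H932R2.mem_Tset] at h1
      simp only [Prod.mk.injEq] at h2
      obtain ⟨rfl, rfl⟩ := h2
      exact ⟨by simp, by simp, by simp only; omega⟩
  rw [h1]
  refine ⟨Finset.finite_toSet _, ?_⟩
  rw [Set.ncard_coe_finset, card_image_of_injective]
  · have h4 := Pool.Agent.H932R2.card_Tfin d
    have h5 : (d + 2).choose 2 * 2 = (d + 2) * (d + 1) := by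
      rw [Nat.choose_two_right, Nat.div_mul_cancel (Nat.even_mul_pred_self _).two_dvd]
      rfl
    linarith
  · rintro ⟨i, l⟩ ⟨i', l'⟩ h
    simp only [Prod.mk.injEq, Nat.cast_inj] at h
    ext
    · exact h.1
    · exact h.2

/-- independence of conditions for plane curves -/
theorem empF_TT {ι : Type} [Fintype ι] (tw : ι → ℕ) {n : ℕ} (hn0 : 0 < n) (hn : n = ∑ i, tw i) {m : ℕ}
    (hm : 0 < m) (h : Mv 0 1 0 n) {d : ℕ} (hd : ((m : ℝ) + 1) * √n < d + 3) :
    n * (m + 1).choose 2 ≤ (d + 2).choose 2 ∧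
      EmpF ((d + 2).choose 2 - n * (m + 1).choose 2) (fun i => (tw i : ℝ)) (fun i => (tw i * m : ℝ)) (TT d) := by
  have h1 := shI_of_Mv tw hn0 hn hm h (by norm_num) (d + 3) hd 0
  obtain ⟨hf, hc⟩ := TT_ncard d
  have h2 := h1.umap (EmpF.sys (tw := fun i => (tw i : ℝ)) (c := fun i => (tw i * m : ℝ)) fun i => Nat.cast_nonneg _)
    1 0 0 1 1 1 (by norm_num) hf (by
    rintro ⟨a, b⟩ ⟨k1, k2, k3⟩
    simp only at k1 k2 k3
    push_cast at k1 k2 k3
    have hs1 : √((0 : ℝ) + 1) = 1 := by norm_num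
    rw [hs1] at k3
    refine ⟨?_, ?_, ?_⟩
    · have : ((-1 : ℤ) : ℝ) < a := by push_cast; linarith
      have : -1 < a := by exact_mod_cast this
      simp only; omega
    · simp only; omega
    · have : ((a + b : ℤ) : ℝ) < ((d + 1 : ℤ) : ℝ) := by push_cast; linarith
      have : a + b < d + 1 := by exact_mod_cast this
      simp only; omega)
  obtain ⟨-, h3, h4⟩ := h2
  rw [hc] at h3 h4
  exact ⟨h3, h4⟩

end Pool.Agent.TH183.QI
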