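import Pool.Agent.TH183.QI.Zero
import Pool.Agent.TH183.QI.Fin

/-! General collisions: the postulation outside a window of bounded length. -/

namespace Pool.Agent.TH183.QI

open Finset Polynomial Pool.Agent.H932R2 Pool.Agent.H932R3 Pool.Agent.TH181.NagM
open Pool.Agent.TH183.QN (EmpW TT)

universe u

theorem coll_large {r : ℕ} (hr : 0 < r) (hM : Mv 0 1 0 r) (m : ℕ) (L : Type u) [Field L] [CharZero L] :
    ∃ F : MvPolynomial (Fin (r + 1)) L, F ≠ 0 ∧
      ∀ (c : L) (a : Fin r → L), MvPolynomial.eval (Fin.cons c a : Fin (r + 1) → L) F ≠ 0 →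
        ∀ d : ℕ, ((m : ℝ) + 1) * √r < d + 3 → JetDim r m c a d := by
  rcases Nat.eq_zero_or_pos m with hm | hm
  · subst hm
    refine ⟨1, one_ne_zero, fun c a _ d _ => ?_⟩
    refine jet_indep (f := 0) ?_ d (Nat.zero_le d)
    have : r * (0 + 1).choose 2 = 0 := by simp
    rw [this]
    exact ⟨fun i => i.elim0, fun i => i.elim0, fun c _ i => i.elim0⟩
  · obtain ⟨d0, hd0, hd1⟩ : ∃ d0 : ℕ, ((m : ℝ) + 1) * √r < d0 + 3 ∧
        ∀ d : ℕ, ((m : ℝ) + 1) * √r < d + 3 → d0 ≤ d := by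
      have hex : ∃ d : ℕ, ((m : ℝ) + 1) * √r < d + 3 := by
        obtain ⟨d, hd⟩ := exists_nat_gt (((m : ℝ) + 1) * √r)
        exact ⟨d, by linarith⟩
      classical
      exact ⟨Nat.find hex, Nat.find_spec hex, fun d hd => Nat.find_min' hex hd⟩
    obtain ⟨h1, h2⟩ := empF_TT (ι := Unit) (fun _ => r) hr (by simp) hm hM hd0
    obtain ⟨F, hF, hF'⟩ := coll_ind hr (by omega) h2 L
    exact ⟨F, hF, fun c a hc d hd => hF' c a hc d (hd1 d hd)⟩

/-- the postulation of general collisions outside the window -/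
theorem coll_both {r : ℕ} (hr : 0 < r) (hM : Mv 0 1 0 r) (m : ℕ) (L : Type u) [Field L] [CharZero L] :
    ∃ F : MvPolynomial (Fin (r + 1)) L, F ≠ 0 ∧
      ∀ (c : L) (a : Fin r → L), MvPolynomial.eval (Fin.cons c a : Fin (r + 1) → L) F ≠ 0 →
        ∀ d : ℕ, (d : ℝ) < m * √r ∨ ((m : ℝ) + 1) * √r < d + 3 → JetDim r m c a d := by
  obtain ⟨F, hF, hF'⟩ := coll_vanish hr hM m L
  obtain ⟨G, hG, hG'⟩ := coll_large hr hM m L
  refine ⟨F * G, mul_ne_zero hF hG, fun c a hc d hd => ?_⟩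
  rw [map_mul] at hc
  rcases hd with hd | hd
  · exact (hF' c a (left_ne_zero_of_mul hc) d hd).2
  · exact hG' c a (right_ne_zero_of_mul hc) d hd

end Pool.Agent.TH183.QI
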