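import Pool.Agent.TH183.QN.Generic

/-! Kernels of bounded dimension for quasimonomial valuations: emptiness after `n` additional
linear conditions. -/

namespace Pool.Agent.TH183.QI

open Finset Pool.Agent.TH176.Nag Pool.Agent.TH183.QN

section pair
variable {K : Type} [Field K]

/-- pairing with a function on exponents -/
noncomputable def pair (φ : ℤ × ℤ → K) (f : (ℤ × ℤ) →₀ K) : K := f.sum fun m c => c * φ m

theorem pair_zero (φ : ℤ × ℤ → K) : pair φ 0 = 0 := by unfold pair; rw [Finsupp.sum_zero_index]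

theorem pair_add (φ : ℤ × ℤ → K) (f g : (ℤ × ℤ) →₀ K) : pair φ (f + g) = pair φ f + pair φ g := by
  unfold pair
  rw [Finsupp.sum_add_index' (by intro m; ring) (by intro m a b; ring)]

theorem pair_smul (φ : ℤ × ℤ → K) (c : K) (f : (ℤ × ℤ) →₀ K) : pair φ (c • f) = c * pair φ f := by
  unfold pair
  rw [Finsupp.sum_smul_index (by intro m; ring), Finsupp.mul_sum]
  refine Finsupp.sum_congr fun m _ => ?_
  ring

theorem pair_sum {κ : Type*} (φ : ℤ × ℤ → K) (s : Finset κ) (f : κ → (ℤ × ℤ) →₀ K) :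
    pair φ (∑ k ∈ s, f k) = ∑ k ∈ s, pair φ (f k) := by
  classical
  induction s using Finset.induction_on with
  | empty => simp [pair_zero]
  | insert a s ha ih => rw [sum_insert ha, sum_insert ha, pair_add, ih]

theorem pair_single (φ : ℤ × ℤ → K) (m : ℤ × ℤ) (c : K) : pair φ (Finsupp.single m c) = c * φ m := by
  unfold pair
  rw [Finsupp.sum_single_index (by ring)]

theorem pair_mapDomain (φ : ℤ × ℤ → K) (ψ : ℤ × ℤ → ℤ × ℤ) (f : (ℤ × ℤ) →₀ K) :
    pair φ (f.mapDomain ψ) = pair (fun m => φ (ψ m)) f := by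
  unfold pair
  rw [Finsupp.sum_mapDomain_index (by intro m; ring) (by intro m a b; ring)]

theorem pair_mapRange {K' : Type} [Field K'] (ρ : K →+* K') (ψ : K' →+ K)
    (hψ : ∀ g c, ψ (g * ρ c) = ψ g * c) (φ : ℤ × ℤ → K) (f : (ℤ × ℤ) →₀ K') :
    pair φ (f.mapRange ψ (map_zero ψ)) = ψ (pair (fun m => ρ (φ m)) f) := by
  unfold pair
  rw [Finsupp.sum_mapRange_index (by intro m; ring)]
  unfold Finsupp.sum
  rw [map_sum]
  refine sum_congr rfl fun m _ => ?_
  rw [hψ]

end pair

section EmpF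
variable {ι : Type}

/-- emptiness after `n` additional linear conditions -/
def EmpF (n : ℕ) (t c : ι → ℝ) (S : Set (ℤ × ℤ)) : Prop :=
  ∃ (K : Type) (_ : Field K) (_ : CharZero K) (X Y : ι → (PS K)ˣ) (φ : Fin n → ℤ × ℤ → K),
    (∀ i, ld (X i) ≠ 0 ∨ ld (Y i) ≠ 0) ∧
    ∀ f : (ℤ × ℤ) →₀ K, (↑f.support : Set (ℤ × ℤ)) ⊆ S →
      (∀ i, Wt (t i) (c i) (ev (X i) (Y i) f)) → (∀ j, pair (φ j) f = 0) → f = 0

variable {n : ℕ} {t c : ι → ℝ}

theorem EmpF.mono {S S' : Set (ℤ × ℤ)} (h : EmpF n t c S') (hS : S ⊆ S') : EmpF n t c S := by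
  obtain ⟨K, _, _, X, Y, φ, hX, hf⟩ := h
  exact ⟨K, _, inferInstance, X, Y, φ, hX, fun f h1 h2 => hf f (h1.trans hS) h2⟩

/-- additional exponents -/
theorem EmpF.add {S S' : Set (ℤ × ℤ)} (h : EmpF n t c S) {T : Finset (ℤ × ℤ)}
    (hS : S' ⊆ S ∪ (↑T : Set (ℤ × ℤ))) : EmpF (n + T.card) t c S' := by
  classical
  obtain ⟨K, _, _, X, Y, φ, hX, hf⟩ := h
  refine ⟨K, _, inferInstance, X, Y,
    Fin.append φ (fun j m => if m = (T.equivFin.symm j : ℤ × ℤ) then 1 else 0), hX, ?_⟩
  intro f h1 h2 h3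
  apply hf f
  · intro m hm
    rcases hS (h1 hm) with h | h
    · exact h
    · exfalso
      have h4 := h3 (Fin.natAdd n (T.equivFin ⟨m, h⟩))
      rw [Fin.append_right] at h4
      simp only [Equiv.symm_apply_apply] at h4
      unfold pair Finsupp.sum at h4
      rw [Finset.sum_eq_single m] at h4
      · beta_reduce at h4
        rw [if_pos rfl, mul_one] at h4
        exact (Finsupp.mem_support_iff.1 (Finset.mem_coe.1 hm)) h4
      · intro m' _ hne
        beta_reduce
        rw [if_neg hne, mul_zero]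
      · intro hn; exact absurd (Finset.mem_coe.1 hm) hn
  · exact h2
  · intro j
    have h4 := h3 (Fin.castAdd T.card j)
    rwa [Fin.append_left] at h4

theorem EmpF.le {n' : ℕ} {S : Set (ℤ × ℤ)} (h : EmpF n t c S) (hn : n ≤ n') : EmpF n' t c S := by
  obtain ⟨k, rfl⟩ := Nat.exists_eq_add_of_le hn
  obtain ⟨K, _, _, X, Y, φ, hX, hf⟩ := h
  refine ⟨K, _, inferInstance, X, Y, Fin.append φ (fun _ _ => 0), hX, ?_⟩
  intro f h1 h2 h3
  apply hf f h1 h2
  intro j
  have h4 := h3 (Fin.castAdd k j)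
  rwa [Fin.append_left] at h4

theorem EmpF.comap (ht : ∀ i, 0 ≤ t i) {S S' : Set (ℤ × ℤ)} (h : EmpF n t c S')
    (a b c' d u v : ℤ) (hdet : a * d - b * c' ≠ 0)
    (hS : ∀ m ∈ S, (a * m.1 + b * m.2 + u, c' * m.1 + d * m.2 + v) ∈ S') : EmpF n t c S := by
  classical
  obtain ⟨K, _, _, X, Y, θ, hX, hf⟩ := h
  let φ : ℤ × ℤ → ℤ × ℤ := fun m => (a * m.1 + b * m.2 + u, c' * m.1 + d * m.2 + v)
  have hφ : Function.Injective φ := by
    rintro ⟨p, q⟩ ⟨p', q'⟩ h
    simp only [φ, Prod.mk.injEq] at h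
    obtain ⟨h1, h2⟩ := h
    have e1 : (a * d - b * c') * (p - p') = 0 := by linear_combination d * h1 - b * h2
    have e2 : (a * d - b * c') * (q - q') = 0 := by linear_combination a * h2 - c' * h1
    have e3 := (mul_eq_zero.1 e1).resolve_left hdet
    have e4 := (mul_eq_zero.1 e2).resolve_left hdet
    ext <;> simp <;> omega
  refine ⟨K, _, inferInstance, fun i => X i ^ a * Y i ^ c', fun i => X i ^ b * Y i ^ d,
    fun j m => θ j (φ m), fun i => ?_, ?_⟩
  · rw [ld_mul, ld_mul, ld_zpow, ld_zpow, ld_zpow, ld_zpow]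
    by_contra hcon
    push Not at hcon
    obtain ⟨h1, h2⟩ := hcon
    have hd : ((a * d - b * c' : ℤ) : K) ≠ 0 := by exact_mod_cast hdet
    have e1 : ((a * d - b * c' : ℤ) : K) * ld (X i) = 0 := by
      push_cast; linear_combination (d : K) * h1 - (c' : K) * h2
    have e2 : ((a * d - b * c' : ℤ) : K) * ld (Y i) = 0 := by
      push_cast; linear_combination (a : K) * h2 - (b : K) * h1
    rcases hX i with h | h
    · exact h ((mul_eq_zero.1 e1).resolve_left hd)
    · exact h ((mul_eq_zero.1 e2).resolve_left hd)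
  intro f hfS hfL hfp
  have h1 : f.mapDomain φ = 0 := by
    apply hf
    · intro m hm
      have := Finsupp.mapDomain_support hm
      simp only [Finset.mem_image] at this
      obtain ⟨m', hm', rfl⟩ := this
      exact hS m' (hfS hm')
    · intro i
      rw [ev_mapDomain]
      exact (hfL i).mul_left (ht i) _
    · intro j
      rw [pair_mapDomain]
      exact hfp j
  exact (Finsupp.mapDomain_injective hφ) (by rw [h1, Finsupp.mapDomain_zero])

/-- the emptiness may be moved to an algebraically closed field -/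
theorem EmpF.algClosed {S : Set (ℤ × ℤ)} (h : EmpF n t c S) :
    ∃ (K : Type) (_ : Field K) (_ : CharZero K) (_ : IsAlgClosed K) (X Y : ι → (PS K)ˣ)
      (φ : Fin n → ℤ × ℤ → K),
      (∀ i, ld (X i) ≠ 0 ∨ ld (Y i) ≠ 0) ∧
      ∀ f : (ℤ × ℤ) →₀ K, (↑f.support : Set (ℤ × ℤ)) ⊆ S →
        (∀ i, Wt (t i) (c i) (ev (X i) (Y i) f)) → (∀ j, pair (φ j) f = 0) → f = 0 := by
  obtain ⟨K, _, _, X, Y, θ, hX, hf⟩ := h
  refine ⟨AlgebraicClosure K, inferInstance, inferInstance, inferInstance,
    fun i => mu (algebraMap K (AlgebraicClosure K)) (X i),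
    fun i => mu (algebraMap K (AlgebraicClosure K)) (Y i),
    fun j m => algebraMap K (AlgebraicClosure K) (θ j m), fun i => ?_, ?_⟩
  · rw [ld_mu, ld_mu]
    rcases hX i with h | h
    · left; simpa using h
    · right; simpa using h
  intro f hfS hfL hfp
  ext1 m
  by_contra hm
  have h1 : ¬ ∀ φ : Module.Dual K (AlgebraicClosure K), φ (f m) = 0 := by
    rw [Module.forall_dual_apply_eq_zero_iff]
    simpa using hm
  push Not at h1
  obtain ⟨φ, hφ⟩ := h1
  have hφ' : ∀ g c, (φ : AlgebraicClosure K →+ K) (g * algebraMap K (AlgebraicClosure K) c) =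
      (φ : AlgebraicClosure K →+ K) g * c := by
    intro g c
    have : g * algebraMap K (AlgebraicClosure K) c = c • g := by rw [Algebra.smul_def, mul_comm]
    rw [this]
    simp [mul_comm]
  have h2 : f.mapRange (φ : AlgebraicClosure K →+ K) (map_zero _) = 0 := by
    apply hf
    · intro m' hm'
      apply hfS
      have := Finsupp.support_mapRange hm'
      exact this
    · intro i
      exact Wt_linear (algebraMap K (AlgebraicClosure K)) (φ : AlgebraicClosure K →+ K) hφ' (hfL i)
    · intro j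
      rw [pair_mapRange (algebraMap K (AlgebraicClosure K)) (φ : AlgebraicClosure K →+ K) hφ', hfp j,
        map_zero]
  apply hφ
  have := DFunLike.congr_fun h2 m
  simpa using this

/-- the emptiness for exponents in a sublattice -/
theorem EmpF.sub (ht : ∀ i, 0 ≤ t i) {S : Set (ℤ × ℤ)} (h : EmpF n t c S) (p q r s u v : ℤ)
    (hdet : 0 < p * s - q * r) :
    EmpF n t c {m | ∃ n ∈ S, m = (p * n.1 + q * n.2 + u, r * n.1 + s * n.2 + v)} := by
  obtain ⟨K, _, _, _, X, Y, θ, hXY, hf⟩ := h.algClosed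
  obtain ⟨D, hD⟩ : ∃ D : ℕ, (D : ℤ) = p * s - q * r := ⟨(p * s - q * r).toNat, by omega⟩
  have hD0 : 0 < D := by omega
  have hrt : ∀ z : (PS K)ˣ, ∃ z' : (PS K)ˣ, z' ^ D = z := fun z => exists_root z hD0
  choose rt hrt using hrt
  let x : ι → (PS K)ˣ := fun i => rt (X i) ^ s * rt (Y i) ^ (-r)
  let y : ι → (PS K)ˣ := fun i => rt (X i) ^ (-q) * rt (Y i) ^ p
  have e1 : ∀ i, x i ^ p * y i ^ r = X i := by
    intro i
    simp only [x, y]
    rw [mul_zpow, mul_zpow, ← zpow_mul, ← zpow_mul, ← zpow_mul, ← zpow_mul, mul_mul_mul_comm,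
      ← zpow_add, ← zpow_add]
    have a1 : s * p + -q * r = (D : ℤ) := by rw [hD]; ring
    have a2 : -r * p + p * r = 0 := by ring
    rw [a1, a2, zpow_natCast, hrt, zpow_zero, mul_one]
  have e2 : ∀ i, x i ^ q * y i ^ s = Y i := by
    intro i
    simp only [x, y]
    rw [mul_zpow, mul_zpow, ← zpow_mul, ← zpow_mul, ← zpow_mul, ← zpow_mul, mul_mul_mul_comm,
      ← zpow_add, ← zpow_add]
    have a1 : s * q + -q * s = 0 := by ring
    have a2 : -r * q + p * s = (D : ℤ) := by rw [hD]; ring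
    rw [a1, a2, zpow_natCast, hrt, zpow_zero, one_mul]
  clear_value x y
  classical
  -- the inverse relabelling
  let φ : ℤ × ℤ → ℤ × ℤ := fun m =>
    if hm : ∃ n ∈ S, m = (p * n.1 + q * n.2 + u, r * n.1 + s * n.2 + v) then hm.choose else 0
  refine ⟨K, inferInstance, inferInstance, x, y, fun j m => θ j (φ m), fun i => ?_, ?_⟩
  · by_contra hcon
    push Not at hcon
    obtain ⟨h1, h2⟩ := hcon
    have b1 : ld (X i) = 0 := by
      rw [← e1 i, ld_mul, ld_zpow, ld_zpow, h1, h2]; ring
    have b2 : ld (Y i) = 0 := by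
      rw [← e2 i, ld_mul, ld_zpow, ld_zpow, h1, h2]; ring
    rcases hXY i with h | h
    · exact h b1
    · exact h b2
  intro f hfS hfL hfp
  have hφ : ∀ m ∈ f.support, φ m ∈ S ∧ m = (p * (φ m).1 + q * (φ m).2 + u, r * (φ m).1 + s * (φ m).2 + v) := by
    intro m hm
    have hm' : ∃ n ∈ S, m = (p * n.1 + q * n.2 + u, r * n.1 + s * n.2 + v) := hfS hm
    have := hm'.choose_spec
    simp only [φ, dif_pos hm']
    exact this
  have hinj : Set.InjOn φ f.support := by
    intro m hm m' hm' he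
    rw [(hφ m hm).2, (hφ m' hm').2, he]
  have h1 : f.mapDomain φ = 0 := by
    apply hf
    · intro m hm
      have := Finsupp.mapDomain_support hm
      simp only [Finset.mem_image] at this
      obtain ⟨m', hm', rfl⟩ := this
      exact (hφ m' hm').1
    · intro i
      have e3 : ev (X i) (Y i) (f.mapDomain φ) =
          ((x i ^ (-u) * y i ^ (-v) : (PS K)ˣ) : PS K) * ev (x i) (y i) f := by
        unfold ev
        rw [Finsupp.sum_mapDomain_index (by simp) (by intro m a b; rw [add_smul]), Finsupp.sum,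
          Finsupp.sum, mul_sum]
        refine sum_congr rfl fun m hm => ?_
        rw [mul_smul_comm, ← Units.val_mul]
        congr 2
        have hm2 := (hφ m hm).2
        have a1 : m.1 = p * (φ m).1 + q * (φ m).2 + u := congrArg Prod.fst hm2
        have a2 : m.2 = r * (φ m).1 + s * (φ m).2 + v := congrArg Prod.snd hm2
        have b1 : -u + m.1 = p * (φ m).1 + q * (φ m).2 := by rw [a1]; ring
        have b2 : -v + m.2 = r * (φ m).1 + s * (φ m).2 := by rw [a2]; ring
        rw [mul_mul_mul_comm, ← zpow_add, ← zpow_add, b1, b2, ← e1 i, ← e2 i, mul_zpow, mul_zpow,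
          ← zpow_mul, ← zpow_mul, ← zpow_mul, ← zpow_mul, zpow_add, zpow_add]
        exact mul_mul_mul_comm _ _ _ _
      rw [e3]
      exact (hfL i).mul_left (ht i) _
    · intro j
      rw [pair_mapDomain]
      exact hfp j
  -- back to f
  by_contra hne
  obtain ⟨m, hm⟩ := Finsupp.support_nonempty_iff.2 hne
  have h2 : f.mapDomain φ (φ m) = f m := by
    rw [Finsupp.mapDomain, Finsupp.sum, Finsupp.coe_finsetSum, Finset.sum_apply,
      Finset.sum_eq_single m]
    · simp
    · intro m' hm' hne'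
      rw [Finsupp.single_apply, if_neg]
      intro he
      exact hne' (hinj hm' hm he)
    · intro h; exact absurd hm h
  rw [h1] at h2
  exact (Finsupp.mem_support_iff.1 hm) (by rw [← h2]; simp)

/-- the flattening lemma for the covector `(1, 0)` -/
theorem EmpF.flat0 (ht : ∀ i, 0 ≤ t i) {S S' : Set (ℤ × ℤ)} {N0 : ℕ} (hb : ∀ m ∈ S, 0 ≤ m.2 + (N0 : ℤ))
    (hS : ∀ (a : ℤ) (B : Finset ℤ), (∀ b ∈ B, ((a, b) : ℤ × ℤ) ∈ S) →
      ∀ k : ℕ, k < B.card → ((a, (k : ℤ)) : ℤ × ℤ) ∈ S') (h : EmpF n t c S') : EmpF n t c S := by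
  classical
  obtain ⟨K, _, _, X, Y, θ, hXY, hf⟩ := h
  refine ⟨LaurentSeries K, inferInstance, inferInstance,
    fun i => mu (HahnSeries.C : K →+* LaurentSeries K) (X i), fun i => uni (Y i),
    fun j m => ∑ l ∈ range ((m.2 + (N0 : ℤ)).toNat + 1),
      tv K ^ l * ((m.2 + (N0 : ℤ)).toNat.choose l : LaurentSeries K) * cst (θ j (m.1, (l : ℤ))), fun i => ?_, ?_⟩
  · rcases hXY i with h | h
    · left
      rw [ld_mu]
      simpa using h
    · right
      rw [← dl_ne_iff] at h ⊢
      rw [uni_val]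
      unfold dl
      rw [map_add, MvPowerSeries.coeff_smul]
      have h1 := dl_mu (HahnSeries.C : K →+* LaurentSeries K) (Y i)
      unfold dl at h1
      have h2 := dl_one (K := LaurentSeries K)
      unfold dl at h2
      rw [h1, h2, zero_add]
      exact (order_cst h).1
  intro f hfS hfL hfp
  by_contra hne
  have hN0 : ∀ m ∈ f.support, 0 ≤ m.2 + (N0 : ℤ) := fun m hm => hb m (hfS hm)
  obtain ⟨n, hn1, hn2, hn3⟩ := exists_lead (flt_ne_zero hN0 hne)
  apply hn1
  apply hf
  · intro m hm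
    have hm' : (flt N0 f m).coeff n ≠ 0 := by
      simpa using hm
    by_cases hneg : m.2 < 0
    · exfalso
      apply hm'
      have : flt N0 f (m.1, m.2) = 0 := flt_apply_neg N0 f m.1 m.2 hneg
      have e : m = (m.1, m.2) := rfl
      rw [e, this]; simp
    · obtain ⟨j, hj⟩ := Int.eq_ofNat_of_zero_le (not_lt.1 hneg)
      have e : m = (m.1, (j : ℤ)) := by ext <;> simp [hj]
      rw [e] at hm' ⊢
      have hlt : j < (fib N0 f m.1).card := by
        by_contra hge
        exact hm' (flt_coeff_eq_zero hN0 hn2 (not_lt.1 hge))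
      have hB := hS m.1 ((f.support.filter (fun m' => m'.1 = m.1)).image Prod.snd) (by
        intro b hb
        rw [mem_image] at hb
        obtain ⟨m', hm1, rfl⟩ := hb
        rw [mem_filter] at hm1
        apply hfS
        rw [← hm1.2]
        exact hm1.1) j
      apply hB
      have hcard : (fib N0 f m.1).card ≤ ((f.support.filter (fun m' => m'.1 = m.1)).image Prod.snd).card := by
        have : fib N0 f m.1 = (((f.support.filter (fun m' => m'.1 = m.1)).image Prod.snd)).image
            (fun b : ℤ => (b + N0).toNat) := by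
          unfold fib; rw [image_image]; rfl
        rw [this]
        exact card_image_le
      omega
  · intro i
    apply Wt_coeff
    rw [ev_flt hN0 _ _ (uni (Y i)) (uni_val _)]
    exact (hfL i).mul_left (ht i) _
  · intro j
    have h1 := pair_mapRange (HahnSeries.C : K →+* LaurentSeries K) (cf n) (fun g c => by
      show (g * cst c).coeff n = g.coeff n * c
      rw [coeff_mul_cst, mul_comm]) (θ j) (flt N0 f)
    have h2 : pair (fun m => cst (θ j m)) (flt N0 f) = 0 := by
      rw [← hfp j]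
      unfold flt
      rw [pair_sum]
      conv_rhs => rw [pair, Finsupp.sum]
      refine sum_congr rfl fun m _ => ?_
      rw [pair_sum, mul_sum]
      refine sum_congr rfl fun l _ => ?_
      rw [pair_single]
      ring
    rw [h2, map_zero] at h1
    exact h1

end EmpF

end Pool.Agent.TH183.QI
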