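import Pool.Agent.TH183.QI.Base

/-! The degeneration from the weighted plane to the charts, all weighted degrees, with additional
conditions. -/

namespace Pool.Agent.TH183.QI

open Finset Pool.Agent.TH176.Nag Pool.Agent.TH183.QN

/-- exponents of the chart polygon -/
def S3F (N t F : ℕ) : Set (ℤ × ℤ) :=
  {m | ∃ l : ℤ, 0 ≤ l ∧ N * l + m.1 * gs N t + m.2 * gs N (t + 1) = F ∧
    0 ≤ m.1 * gs N (t + 1) + l ∧ 0 ≤ m.2 * gs N t + l}

/-- exponents of the weighted plane -/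
def WPF (N F : ℕ) : Set (ℤ × ℤ) :=
  {m | 0 ≤ m.1 ∧ 0 ≤ m.2 ∧ m.1 + (N - 2) * m.2 ≤ F}

/-- the pullback of a monomial -/
noncomputable def pbm (K : Type*) [Field K] (N t F : ℕ) (m : ℤ × ℤ) : Lau K :=
  s0 N t (zL K N) ^ (F - m.1.toNat - (N - 2) * m.2.toNat) *
      s1 N t (zL K N) ^ m.1.toNat * s2 N t (zL K N) ^ m.2.toNat

/-- the pullback to Laurent polynomials of the chart -/
noncomputable def pbF {K : Type*} [Field K] (N t F : ℕ) (f : (ℤ × ℤ) →₀ K) : Lau K :=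
  f.sum fun m c => c • (s0 N t (zL K N) ^ (F - m.1.toNat - (N - 2) * m.2.toNat) *
      s1 N t (zL K N) ^ m.1.toNat * s2 N t (zL K N) ^ m.2.toNat)

theorem pbF_Dg {K : Type*} [Field K] [CharZero K] {N : ℕ} (hN : 3 ≤ N) (t F : ℕ) {f : (ℤ × ℤ) →₀ K}
    (hf : (↑f.support : Set (ℤ × ℤ)) ⊆ WPF N F) :
    Dg N (gs N t) (gs N (t + 1)) F (pbF N t F f) := by
  unfold pbF Finsupp.sum
  apply Dg.sum
  intro m hm
  apply Dg.smul
  obtain ⟨h1, h2, h3⟩ := hf hm
  obtain ⟨a, ha⟩ := Int.eq_ofNat_of_zero_le h1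
  obtain ⟨b, hb⟩ := Int.eq_ofNat_of_zero_le h2
  obtain ⟨M, rfl⟩ : ∃ M, N = M + 2 := ⟨N - 2, by omega⟩
  have e1 : m.1.toNat = a := by omega
  have e2 : m.2.toNat = b := by omega
  rw [e1, e2]
  simp only [Nat.add_sub_cancel]
  have h4 : a + M * b ≤ F := by
    rw [ha, hb] at h3
    push_cast at h3
    have : (a : ℤ) + M * b ≤ F := by linarith
    exact_mod_cast this
  have d0 : Dg ((M + 2 : ℕ) : ℤ) (gs ((M + 2 : ℕ) : ℤ) t) (gs ((M + 2 : ℕ) : ℤ) (t + 1)) 1
    (s0 (M + 2) t (zL K (M + 2))) := fun m hm => Pool.Agent.TH819.NagD.supp_s0 hN t m hm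
  have d1 : Dg ((M + 2 : ℕ) : ℤ) (gs ((M + 2 : ℕ) : ℤ) t) (gs ((M + 2 : ℕ) : ℤ) (t + 1)) 1
    (s1 (M + 2) t (zL K (M + 2))) := fun m hm => Pool.Agent.TH819.NagD.supp_s1 hN t m hm
  have d2 : Dg ((M + 2 : ℕ) : ℤ) (gs ((M + 2 : ℕ) : ℤ) t) (gs ((M + 2 : ℕ) : ℤ) (t + 1)) (((M + 2 : ℕ) : ℤ) - 2)
    (s2 (M + 2) t (zL K (M + 2))) := fun m hm => Pool.Agent.TH819.NagD.supp_s2 hN t m hm
  have h5 := ((d0.pow (F - a - M * b)).mul (d1.pow a)).mul (d2.pow b)
  have e3 : ((F - a - M * b : ℕ) : ℤ) = F - a - M * b := by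
    have : F - a - M * b = F - (a + M * b) := by omega
    rw [this, Nat.cast_sub h4]; push_cast; ring
  have e4 : ((F - a - M * b : ℕ) : ℤ) * 1 + (a : ℤ) * 1 + (b : ℤ) * (((M + 2 : ℕ) : ℤ) - 2) = F := by
    rw [e3]; push_cast; ring
  rw [e4] at h5
  exact h5

theorem pbF_adjoin {K : Type*} [Field K] (N t F : ℕ) (f : (ℤ × ℤ) →₀ K) :
    pbF N t F f ∈ Algebra.adjoin K {(zL K N).1, (zL K N).2.1, (zL K N).2.2.1, (zL K N).2.2.2} := by
  set A := Algebra.adjoin K {(zL K N).1, (zL K N).2.1, (zL K N).2.2.1, (zL K N).2.2.2} with hA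
  have h0 : (zL K N).1 ∈ A ∧ (zL K N).2.1 ∈ A ∧ (zL K N).2.2.1 ∈ A ∧ (zL K N).2.2.2 ∈ A :=
    ⟨Algebra.subset_adjoin (by simp), Algebra.subset_adjoin (by simp),
      Algebra.subset_adjoin (by simp), Algebra.subset_adjoin (by simp)⟩
  have h1 : ∀ t, ((stp N)^[t] (zL K N)).1 ∈ A ∧ ((stp N)^[t] (zL K N)).2.1 ∈ A ∧
      ((stp N)^[t] (zL K N)).2.2.1 ∈ A ∧ ((stp N)^[t] (zL K N)).2.2.2 ∈ A := by
    intro t
    induction t with
    | zero => exact h0
    | succ t ih =>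
      rw [Function.iterate_succ_apply']
      obtain ⟨a, b, c, d⟩ := ih
      refine ⟨?_, a, b, c⟩
      refine A.sub_mem (A.mul_mem (A.pow_mem a N) d) ?_
      unfold pN
      apply A.sum_mem
      intro s _
      exact A.mul_mem (A.natCast_mem _) (A.pow_mem b _)
  obtain ⟨a, b, c, d⟩ := h1 t
  unfold pbF Finsupp.sum
  apply A.sum_mem
  intro m _
  apply A.smul_mem
  refine A.mul_mem (A.mul_mem (A.pow_mem b _) (A.pow_mem c _)) (A.pow_mem ?_ _)
  exact A.sub_mem (A.mul_mem a d) (A.pow_mem (A.mul_mem b c) _)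

theorem pair_pbF {K : Type} [Field K] (N t F : ℕ) (θ : ℤ × ℤ → K) (f : (ℤ × ℤ) →₀ K) :
    pair (fun m => pair θ (pbm K N t F m).coeff) f = pair θ (pbF N t F f).coeff := by
  unfold pbF
  rw [pair]
  unfold Finsupp.sum
  rw [AddMonoidAlgebra.coeff_sum, pair_sum]
  refine sum_congr rfl fun m _ => ?_
  rw [AddMonoidAlgebra.coeff_smul, pair_smul]
  rfl

theorem pair_scl {K : Type} [Field K] (θ : ℤ × ℤ → LaurentSeries K) (f : (ℤ × ℤ) →₀ LaurentSeries K) :
    pair θ (scl f) = pair (fun m => tv K ^ (m.1 + m.2) * θ m) f := by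
  unfold pair Finsupp.sum
  rw [scl_support]
  refine sum_congr rfl fun m _ => ?_
  beta_reduce
  rw [scl_apply, mul_assoc]

/-- the pullback of a polynomial of the chart -/
theorem evA_pbF {K : Type} [Field K] {N t F : ℕ} (A B : (PS K)ˣ) (h0 : cc (s0 N t (zP N A B)) ≠ 0)
    (h1 : cc (s1 N t (zP N A B)) ≠ 0) (h2 : cc (s2 N t (zP N A B)) ≠ 0) {f : (ℤ × ℤ) →₀ K}
    (hsup : ∀ m ∈ f.support, 0 ≤ m.1 ∧ 0 ≤ m.2 ∧
      m.1 + ((N - 2 : ℕ) : ℤ) * m.2 ≤ (F : ℤ)) :
    evA A B (pbF N t F f) = ((uo _ h0 ^ F : (PS K)ˣ) : PS K) *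
      ev (uo _ h1 * (uo _ h0)⁻¹) (uo _ h2 * (uo _ h0 ^ (N - 2))⁻¹) f := by
  have ez := evA_zL N A B
  have m0 := map_s0 (evA A B : Lau K →+* PS K) N t (zL _ N)
  have m1 := map_s1 (evA A B : Lau K →+* PS K) N t (zL _ N)
  have m2 := map_s2 (evA A B : Lau K →+* PS K) N t (zL _ N)
  have m0' : evA A B (s0 N t (zL _ N)) = ((uo _ h0 : (PS K)ˣ) : PS K) := by
    rw [uo_val, ← ez]; exact m0.symm
  have m1' : evA A B (s1 N t (zL _ N)) = ((uo _ h1 : (PS K)ˣ) : PS K) := by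
    rw [uo_val, ← ez]; exact m1.symm
  have m2' : evA A B (s2 N t (zL _ N)) = ((uo _ h2 : (PS K)ˣ) : PS K) := by
    rw [uo_val, ← ez]; exact m2.symm
  generalize uo _ h0 = U0 at *
  generalize uo _ h1 = U1 at *
  generalize uo _ h2 = U2 at *
  unfold pbF ev Finsupp.sum
  rw [map_sum, mul_sum]
  refine sum_congr rfl fun m hm => ?_
  rw [map_smul, map_mul, map_mul, map_pow, map_pow, map_pow, m0', m1', m2', mul_smul_comm]
  congr 1
  rw [← Units.val_pow_eq_pow_val, ← Units.val_pow_eq_pow_val, ← Units.val_pow_eq_pow_val,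
    ← Units.val_mul, ← Units.val_mul, ← Units.val_mul]
  congr 1
  obtain ⟨k1, k2, k3⟩ := hsup m hm
  obtain ⟨a, ha⟩ := Int.eq_ofNat_of_zero_le k1
  obtain ⟨b, hb⟩ := Int.eq_ofNat_of_zero_le k2
  have ha' : m.1.toNat = a := by omega
  have hb' : m.2.toNat = b := by omega
  rw [ha', hb']
  have k4 : a + (N - 2) * b ≤ F := by
    rw [ha, hb] at k3
    exact_mod_cast k3
  have k5 : U0 ^ F = U0 ^ (F - a - (N - 2) * b) * U0 ^ a * (U0 ^ (N - 2)) ^ b := by
    rw [← pow_mul, ← pow_add, ← pow_add]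
    congr 1
    omega
  rw [k5, ha, hb, zpow_natCast, zpow_natCast, mul_pow, mul_pow, inv_pow, inv_pow]
  generalize U0 ^ (F - a - (N - 2) * b) = P
  generalize U0 ^ a = Q
  generalize (U0 ^ (N - 2)) ^ b = R
  generalize U1 ^ a = S
  generalize U2 ^ b = T
  calc P * S * T = P * S * T * (Q * Q⁻¹) * (R * R⁻¹) := by
        rw [mul_inv_cancel, mul_inv_cancel, mul_one, mul_one]
    _ = P * Q * R * (S * Q⁻¹ * (T * R⁻¹)) := by
        apply Units.ext
        push_cast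
        ring

section
variable {ι : Type} {n : ℕ} {tw c : ι → ℝ}

theorem EmpF.chart (htw : ∀ i, 0 ≤ tw i) {N : ℕ} (hN : 3 ≤ N) (t F : ℕ)
    (h : EmpF n tw c (S3F N (t + 2) F)) : EmpF n tw c (WPF N F) := by
  obtain ⟨K, _, _, X, Y, θ, hXY, hf⟩ := h
  let A : ι → (PS (LaurentSeries K))ˣ := fun i =>
    tu K * mu (HahnSeries.C : K →+* LaurentSeries K) (X i)
  let B : ι → (PS (LaurentSeries K))ˣ := fun i =>
    tu K * mu (HahnSeries.C : K →+* LaurentSeries K) (Y i)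
  have hA : ∀ i, cc (A i : PS (LaurentSeries K)) = tv K * cst (cc (X i : PS K)) := by
    intro i; rw [cc_tu, cc_mu]
  have hB : ∀ i, cc (B i : PS (LaurentSeries K)) = tv K * cst (cc (Y i : PS K)) := by
    intro i; rw [cc_tu, cc_mu]
  have hne : ∀ i, cc (s0 N (t + 2) (zP N (A i) (B i))) ≠ 0 ∧ cc (s1 N (t + 2) (zP N (A i) (B i))) ≠ 0 ∧
      cc (s2 N (t + 2) (zP N (A i) (B i))) ≠ 0 := by
    intro i
    rw [cc_s0, cc_s1, cc_s2, hA, hB]
    exact s012_ne hN (cc_unit_ne_zero (X i)) (cc_unit_ne_zero (Y i)) t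
  have hcc : ∀ i, ∀ l, cc ((stp N)^[l] (zP N (A i) (B i))).2.1 ≠ 0 := by
    intro i l
    have h1 := congrArg (fun z : LaurentSeries K × LaurentSeries K × LaurentSeries K × LaurentSeries K => z.2.1)
      (cc_iter N (A i) (B i) l)
    simp only at h1
    rw [h1, hA, hB]
    exact (iter_order hN (cc_unit_ne_zero (X i)) (cc_unit_ne_zero (Y i)) l).2.1
  refine ⟨LaurentSeries K, inferInstance, inferInstance,
    fun i => uo _ (hne i).2.1 * (uo _ (hne i).1)⁻¹,
    fun i => uo _ (hne i).2.2 * (uo _ (hne i).1 ^ (N - 2))⁻¹,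
    fun j m => pair (fun m' => tv K ^ (m'.1 + m'.2) * cst (θ j m')) (pbm (LaurentSeries K) N (t + 2) F m).coeff,
    fun i => ?_, ?_⟩
  · by_contra hcon
    push Not at hcon
    obtain ⟨h1, h2⟩ := hcon
    obtain ⟨h3, h4⟩ := dl_s012 (by omega) (A i) (B i) (t + 2) (hne i).1 (hne i).2.1 (hne i).2.2
      (fun l _ => hcc i l) h1 h2
    have h3' : dl (X i : PS K) = 0 := by
      have h5 : tv K * cst (dl (X i : PS K)) = 0 := by
        rw [← h3]
        show _ = dl ((tu K * mu (HahnSeries.C : K →+* LaurentSeries K) (X i) :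
          (PS (LaurentSeries K))ˣ) : PS (LaurentSeries K))
        rw [dl_tu, dl_mu]
      by_contra h6
      exact (order_cst h6).1 h5
    have h4' : dl (Y i : PS K) = 0 := by
      have h5 : tv K * cst (dl (Y i : PS K)) = 0 := by
        rw [← h4]
        show _ = dl ((tu K * mu (HahnSeries.C : K →+* LaurentSeries K) (Y i) :
          (PS (LaurentSeries K))ˣ) : PS (LaurentSeries K))
        rw [dl_tu, dl_mu]
      by_contra h6
      exact (order_cst h6).1 h5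
    rcases hXY i with h | h
    · exact (dl_ne_iff _).2 h h3'
    · exact (dl_ne_iff _).2 h h4'
  intro f hfS hfL hfp
  by_contra hf0
  -- the support in natural form
  have hsup : ∀ m ∈ f.support, 0 ≤ m.1 ∧ 0 ≤ m.2 ∧ m.1 + ((N - 2 : ℕ) : ℤ) * m.2 ≤ (F : ℤ) := by
    intro m hm
    obtain ⟨h1, h2, h3⟩ := hfS hm
    refine ⟨h1, h2, ?_⟩
    obtain ⟨M, rfl⟩ : ∃ M, N = M + 2 := ⟨N - 2, by omega⟩
    simp only [Nat.add_sub_cancel]
    push_cast at h3 ⊢
    linarith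
  have hg0 : pbF N (t + 2) F f ≠ 0 := by
    intro h
    exact hf0 (Pool.Agent.TH543.NagJ.comp_inj hN (t + 2) hsup h)
  have hLM : ∀ i, Wt (tw i) (c i) (ev (A i) (B i) (pbF N (t + 2) F f).coeff) := by
    intro i
    rw [← evA_apply, evA_pbF (A i) (B i) (hne i).1 (hne i).2.1 (hne i).2.2 hsup]
    exact (hfL i).mul_left (htw i) _
  set g := pbF N (t + 2) F f with hg
  have hDg := pbF_Dg hN (t + 2) F hfS
  rw [← hg] at hDg
  have hadj := pbF_adjoin N (t + 2) F f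
  rw [← hg] at hadj
  have hgc : g.coeff ≠ 0 := by
    intro h
    apply hg0
    ext m
    rw [h]; rfl
  have hsc : scl g.coeff ≠ 0 := by
    intro h
    apply hgc
    rw [← Finsupp.support_eq_empty, ← scl_support, h, Finsupp.support_zero]
  obtain ⟨n', hn1, hn2, hn3⟩ := exists_lead hsc
  apply hn1
  apply hf
  · intro m hm
    have hm' : (scl g.coeff m).coeff n' ≠ 0 := by simpa using hm
    obtain ⟨h1, h2⟩ := hn3 m hm'
    have h3 : m ∈ g.coeff.support := by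
      rw [← scl_support]; exact Finsupp.mem_support_iff.2 h1
    have h3' := Finsupp.mem_support_iff.1 h3
    obtain ⟨h4, l, hl⟩ := hDg m h3
    have hN' : (3 : ℤ) ≤ N := by exact_mod_cast hN
    have hl0 : 0 ≤ l := by
      have : (0 : ℤ) ≤ N * l := by rw [← hl]; linarith
      nlinarith
    have hmin : ∀ m' ∈ g.coeff.support, (g.coeff m).order + (m.1 + m.2) ≤
        (g.coeff m').order + (m'.1 + m'.2) := by
      intro m' hm''
      rw [← scl_order h3', ← scl_order (Finsupp.mem_support_iff.1 hm''), h2]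
      by_contra hlt
      have h5 := hn2 m' _ (not_le.1 hlt)
      have h6 : scl g.coeff m' ≠ 0 := by
        rw [← Finsupp.mem_support_iff, scl_support]; exact hm''
      exact h6 (HahnSeries.coeff_order_eq_zero.1 h5)
    have hg1 := gs_pos hN' (t + 2)
    have hg2 := gs_pos hN' (t + 2 + 1)
    refine ⟨l, hl0, by linarith, ?_, ?_⟩
    · rcases le_or_gt 0 m.1 with h7 | h7
      · positivity
      · obtain ⟨j, hj1, hj2⟩ := Pool.Agent.TH494.NagG.lowest_left (by omega) g hadj m h3' h7 hmin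
        obtain ⟨h8, -⟩ := hDg (m.1, j) (Finsupp.mem_support_iff.2 hj2)
        simp only at h8
        have h9 : (m.2 - N * m.1) * gs N (t + 2 + 1) ≤ j * gs N (t + 2 + 1) :=
          mul_le_mul_of_nonneg_right hj1 hg2.le
        have h10 : 0 ≤ (N : ℤ) * (m.1 * gs N (t + 2 + 1) + l) := by nlinarith
        exact nonneg_of_mul_nonneg_right h10 (by omega)
    · rcases le_or_gt 0 m.2 with h7 | h7
      · positivity
      · obtain ⟨j, hj1, hj2⟩ := Pool.Agent.TH494.NagG.lowest_right (by omega) g hadj m h3' h7 hmin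
        obtain ⟨h8, -⟩ := hDg (j, m.2) (Finsupp.mem_support_iff.2 hj2)
        simp only at h8
        have h9 : (m.1 - N * m.2) * gs N (t + 2) ≤ j * gs N (t + 2) :=
          mul_le_mul_of_nonneg_right hj1 hg1.le
        have h10 : 0 ≤ (N : ℤ) * (m.2 * gs N (t + 2) + l) := by nlinarith
        exact nonneg_of_mul_nonneg_right h10 (by omega)
  · intro i
    apply Wt_coeff
    rw [← ev_scl]
    exact hLM i
  · intro j
    have h1 := pair_mapRange (HahnSeries.C : K →+* LaurentSeries K) (cf n') (fun g c => by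
      show (g * cst c).coeff n' = g.coeff n' * c
      rw [coeff_mul_cst, mul_comm]) (θ j) (scl g.coeff)
    have h2 : pair (fun m => cst (θ j m)) (scl g.coeff) = 0 := by
      rw [pair_scl, ← hfp j, hg, ← pair_pbF]
    rw [h2, map_zero] at h1
    exact h1


end

end Pool.Agent.TH183.QI
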