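import Pool.Agent.TH183.QI.Trans
import Pool.Agent.H932R3.Collide

/-! Collisions `(y - γ(x), (x - c) ^ r) ^ m` of `r` points. -/

namespace Pool.Agent.TH183.QI

open Finset Polynomial Pool.Agent.H932R2 Pool.Agent.H932R3
open Pool.Agent.TH183.QN (EmpW TT)

universe u

/-- `QT.exps d` has `binom (d + 2) 2` elements -/
theorem card_exps (d : ℕ) : (QT.exps d).card = (d + 2).choose 2 := by
  unfold QT.exps
  rw [Finset.card_finsuppAntidiag_nat_eq_choose, Finset.card_univ, Fintype.card_fin]
  have h1 : 3 + d - 1 = d + 2 := by omega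
  rw [h1]
  exact (Nat.choose_symm_of_eq_add (show d + 2 = 2 + d by omega)).symm

/-- the expansion along the graph of a polynomial, as power series -/
theorem expand_eq {K : Type*} [Field K] {g : K[X]} (hg : g.coeff 0 = 0) (F : MvPolynomial (Fin 3) K) (j l : ℕ) :
    PowerSeries.coeff j ((QT.expand (fun k => g.coeff (k + 1)) F).coeff l) =
      ((MvPolynomial.aeval ![C X, C g + X, (1 : K[X][X])] F).coeff l).coeff j := by
  have hmap : QT.expand (fun k => g.coeff (k + 1)) F =
      Polynomial.map (Polynomial.coeToPowerSeries.ringHom (R := K))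
        (MvPolynomial.aeval ![C X, C g + X, (1 : K[X][X])] F) := by
    unfold QT.expand
    rw [MvPolynomial.aeval_def, MvPolynomial.aeval_def, ← Polynomial.coe_mapRingHom,
      MvPolynomial.eval₂_comp_left]
    congr 1
    · ext a n m
      have h1 : (algebraMap K (Polynomial (PowerSeries K))) a = Polynomial.C (PowerSeries.C a) := rfl
      have h2 : (algebraMap K (Polynomial (Polynomial K))) a = Polynomial.C (Polynomial.C a) := rfl
      rw [RingHom.comp_apply, h1, h2, Polynomial.coe_mapRingHom, Polynomial.map_C]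
      simp
    · have hg' : PowerSeries.X * PowerSeries.mk (fun k => g.coeff (k + 1)) = (g : PowerSeries K) := by
        ext n
        cases n with
        | zero => simp [hg]
        | succ n =>
          rw [PowerSeries.coeff_succ_X_mul, PowerSeries.coeff_mk, Polynomial.coeff_coe]
      funext k
      rw [hg']
      fin_cases k
      · simp
      · simp
      · simp
  rw [hmap, Polynomial.coeff_map]
  simp

/-- a rational point outside a hypersurface, with finitely many nonzero coordinates -/
theorem exists_poly {D : MvPolynomial ℕ ℚ} (hD : D ≠ 0) (L : Type u) [Field L] [CharZero L] :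
    ∃ g : L[X], g.coeff 0 = 0 ∧ MvPolynomial.aeval (fun k => g.coeff (k + 1)) D ≠ 0 := by
  classical
  obtain ⟨c0, hc0⟩ : ∃ c : ℕ → ℚ, MvPolynomial.eval c D ≠ 0 := by
    by_contra hcon
    push Not at hcon
    apply hD
    apply MvPolynomial.funext
    intro x
    rw [hcon x, map_zero]
  obtain ⟨M, hM⟩ : ∃ M : ℕ, ∀ k ∈ D.vars, k < M := ⟨D.vars.sup id + 1, fun k hk => by
    have := Finset.le_sup (f := id) hk
    simp only [id] at this
    omega⟩
  refine ⟨∑ k ∈ range M, C (algebraMap ℚ L (c0 k)) * X ^ (k + 1), ?_, ?_⟩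
  · rw [finsetSum_coeff]
    refine Finset.sum_eq_zero fun k _ => ?_
    rw [coeff_C_mul, coeff_X_pow, if_neg (by omega), mul_zero]
  · have h1 : ∀ k, (∑ k ∈ range M, C (algebraMap ℚ L (c0 k)) * X ^ (k + 1) : L[X]).coeff (k + 1) =
        if k < M then algebraMap ℚ L (c0 k) else 0 := by
      intro k
      rw [finsetSum_coeff]
      simp only [coeff_C_mul, coeff_X_pow]
      by_cases hk : k < M
      · rw [if_pos hk, Finset.sum_eq_single k]
        · simp
        · intro b _ hb
          rw [if_neg (by omega), mul_zero]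
        · intro h; exact absurd (mem_range.2 hk) h
      · rw [if_neg hk]
        refine Finset.sum_eq_zero fun b hb => ?_
        rw [mem_range] at hb
        rw [if_neg (by omega), mul_zero]
    have h2 : MvPolynomial.aeval (fun k => (∑ k ∈ range M, C (algebraMap ℚ L (c0 k)) * X ^ (k + 1) : L[X]).coeff (k + 1)) D =
        MvPolynomial.aeval (fun k => algebraMap ℚ L (c0 k)) D := by
      rw [MvPolynomial.aeval_def, MvPolynomial.aeval_def]
      apply MvPolynomial.eval₂Hom_congr' rfl _ rfl
      intro k hk _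
      rw [h1, if_pos (hM k hk)]
    rw [h2]
    have h3 : MvPolynomial.aeval (fun k => algebraMap ℚ L (c0 k)) D = algebraMap ℚ L (MvPolynomial.eval c0 D) := by
      have := MvPolynomial.aeval_algebraMap_apply L c0 D
      rw [MvPolynomial.aeval_eq_eval] at this
      exact this
    rw [h3]
    exact (_root_.map_ne_zero _).2 hc0

/-- the rank of the conditions of one collision at the origin -/
theorem EmpF.rk {n N : ℕ} {r m d : ℕ} (hr : 0 < r) (hN : N + n ≤ (d + 2).choose 2)
    (h : EmpF n (fun _ : Unit => (r : ℝ)) (fun _ => (r * m : ℝ)) (TT d)) (L : Type u) [Field L] [CharZero L] :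
    ∃ g : L[X], RkI (cIdeal (fun _ : Fin r => (0 : L)) g m) (Tset d) N := by
  classical
  obtain ⟨a, b, hab, D, hD, hD'⟩ := EmpF.generic.{u} (N := N) (by exact_mod_cast hr) (by rw [card_exps]; exact hN) h
  obtain ⟨g, hg0, hg⟩ := exists_poly hD L
  refine ⟨g, fun i => mon L ((b i).1 0, (b i).1 1), fun i => ?_, fun c hc => ?_⟩
  · refine Submodule.subset_span ⟨_, ?_, rfl⟩
    have h1 := QT.mem_exps.1 (b i).2
    rw [Finsupp.degree_eq_sum, Fin.sum_univ_three] at h1
    rw [mem_Tset]
    omega
  · rw [mem_cIdeal_iff] at hc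
    have h1 := hD' L _ hg c (by
      intro i
      have hi := hab i
      have hl : (a i).2 < m := by
        by_contra hcon
        have h2 : (m : ℝ) ≤ (a i).2 := by exact_mod_cast not_lt.1 hcon
        have h3 : (0 : ℝ) ≤ (a i).1 := Nat.cast_nonneg _
        have h4 : (0 : ℝ) < r := by exact_mod_cast hr
        nlinarith
      have hi' : (a i).1 < r * (m - (a i).2) := by
        have h2 : ((a i).1 : ℝ) < ((r * (m - (a i).2) : ℕ) : ℝ) := by
          push_cast [Nat.cast_sub hl.le]
          linarith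
        exact_mod_cast h2
      have h2 := hc _ hl _ hi'
      have h3 : sh 0 g (∑ j, c j • mon L ((b j).1 0, (b j).1 1)) =
          MvPolynomial.aeval ![C X, C g + X, (1 : L[X][X])] (∑ j, MvPolynomial.monomial (b j).1 (c j)) := by
        rw [map_sum, map_sum]
        refine Finset.sum_congr rfl fun j _ => ?_
        rw [MvPolynomial.aeval_monomial, Finsupp.prod_fintype _ _ (fun i => by simp), Fin.prod_univ_three]
        have h4 : sh 0 g (c j • mon L ((b j).1 0, (b j).1 1)) = C (C (c j)) * sh 0 g (mon L ((b j).1 0, (b j).1 1)) := by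
          have h5 : c j • mon L ((b j).1 0, (b j).1 1) = C (C (c j)) * mon L ((b j).1 0, (b j).1 1) := by
            rw [Algebra.smul_def]; rfl
          rw [h5, map_mul, sh_C, C_comp]
        rw [h4]
        simp only [mon, map_mul, map_pow, sh_C, sh_X, C_0, add_zero, comp_X]
        simp [add_comm (C g : L[X][X]) X]
      rw [h3, ← expand_eq hg0] at h2
      rw [← h2]
      unfold QT.expand
      rw [map_sum, Polynomial.finsetSum_coeff, map_sum]
      refine Finset.sum_congr rfl fun j _ => ?_
      unfold QT.ent QT.expand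
      have h5 : (MvPolynomial.monomial (b j).1 (c j) : MvPolynomial (Fin 3) L) = c j • MvPolynomial.monomial (b j).1 1 := by
        rw [MvPolynomial.smul_monomial, smul_eq_mul, mul_one]
      rw [h5, map_smul, Polynomial.coeff_smul, PowerSeries.coeff_smul, smul_eq_mul])
    exact fun i => congrFun h1 i

/-- openness -/
theorem coll_open {K : Type*} [Field K] {r m : ℕ} (hr : 0 < r) {T : Set (ℕ × ℕ)} {N : ℕ} {c1 : K} {g : K[X]}
    (hR' : RkI (cIdeal (fun _ : Fin r => c1) g m) T N) :
    ∃ F : MvPolynomial (Fin (r + 1)) K, F ≠ 0 ∧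
      ∀ (c : K) (a : Fin r → K), MvPolynomial.eval (Fin.cons c a : Fin (r + 1) → K) F ≠ 0 →
        RkI (jetIdeal m c a) T N := by
  classical
  let c : Unit → MvPolynomial (Fin (r + 1)) K := fun _ => MvPolynomial.X 0
  let γ : Unit → (MvPolynomial (Fin (r + 1)) K)[X] := fun _ =>
    ∑ j : Fin r, C (MvPolynomial.X j.succ) * X ^ (j : ℕ)
  have hev : ∀ (c0 : K) (a : Fin r → K),
      uIdeal r m (fun i => MvPolynomial.eval (Fin.cons c0 a : Fin (r + 1) → K) (c i))
        (fun i => (γ i).map (MvPolynomial.eval (Fin.cons c0 a : Fin (r + 1) → K))) =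
      jetIdeal m c0 a := by
    intro c0 a
    simp only [c, γ, MvPolynomial.eval_X, Fin.cons_zero, uIdeal, iInf_const, cIdeal, jetIdeal,
      rootPoly_const, Polynomial.map_sum, Polynomial.map_mul, Polynomial.map_C,
      Polynomial.map_pow, Polynomial.map_X, Fin.cons_succ]
  have h3 := hR'.anti (cIdeal_mod _ g m)
  have hdeg : (g %ₘ rootPoly (fun _ : Fin r => c1)).natDegree < r := by
    have h4 := natDegree_modByMonic_lt g (rootPoly_monic (fun _ : Fin r => c1)) (by
      intro h5
      have h6 := rootPoly_natDegree (fun _ : Fin r => c1)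
      rw [h5, natDegree_one] at h6
      omega)
    rwa [rootPoly_natDegree] at h4
  obtain ⟨g', hg'⟩ : ∃ g', g' = g %ₘ rootPoly (fun _ : Fin r => c1) := ⟨_, rfl⟩
  rw [← hg'] at h3 hdeg
  have hsum : ∑ j : Fin r, C (g'.coeff j) * X ^ (j : ℕ) = g' := by
    conv_rhs => rw [as_sum_range_C_mul_X_pow' g' hdeg]
    exact (Finset.sum_range fun j => C (g'.coeff j) * X ^ j).symm
  obtain ⟨F, hF, hF'⟩ := exists_open r m c γ T N
    (Fin.cons c1 (fun j : Fin r => g'.coeff j) : Fin (r + 1) → K) (by
    rw [hev, jetIdeal, hsum]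
    unfold cIdeal at h3
    rw [rootPoly_const] at h3
    exact h3)
  exact ⟨F, hF, fun c0 a hP => by rw [← hev]; exact hF' _ hP⟩

/-- vanishing in low degrees -/
theorem coll_zero {r m d : ℕ} (hr : 0 < r)
    (h : EmpW (fun _ : Unit => (r : ℝ)) (fun _ => (r * m : ℝ)) (TT d)) (L : Type u) [Field L] [CharZero L] :
    ∃ F : MvPolynomial (Fin (r + 1)) L, F ≠ 0 ∧
      ∀ (c : L) (a : Fin r → L), MvPolynomial.eval (Fin.cons c a : Fin (r + 1) → L) F ≠ 0 →
        ∀ d' ≤ d, JetDim r m c a d' := by
  obtain ⟨g, hg⟩ := EmpF.rk (N := (d + 2).choose 2) hr (le_of_eq (add_zero _)) (EmpF.of_empW h) L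
  have h1 : (d + 2).choose 2 = (Tfin d).card := by
    have h4 := card_Tfin d
    have h5 : (d + 2).choose 2 * 2 = (d + 2) * (d + 1) := by
      rw [Nat.choose_two_right, Nat.div_mul_cancel (Nat.even_mul_pred_self _).two_dvd]
      rfl
    linarith
  rw [h1] at hg
  obtain ⟨F, hF, hF'⟩ := coll_open hr hg
  exact ⟨F, hF, fun c a hc d' hd' => jet_full (hF' c a hc) d' hd'⟩

/-- independence in high degrees -/
theorem coll_ind {n r m d : ℕ} (hr : 0 < r) (hn : r * (m + 1).choose 2 + n ≤ (d + 2).choose 2)
    (h : EmpF n (fun _ : Unit => (r : ℝ)) (fun _ => (r * m : ℝ)) (TT d)) (L : Type u) [Field L] [CharZero L] :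
    ∃ F : MvPolynomial (Fin (r + 1)) L, F ≠ 0 ∧
      ∀ (c : L) (a : Fin r → L), MvPolynomial.eval (Fin.cons c a : Fin (r + 1) → L) F ≠ 0 →
        ∀ d' ≥ d, JetDim r m c a d' := by
  obtain ⟨g, hg⟩ := EmpF.rk (N := r * (m + 1).choose 2) hr hn h L
  obtain ⟨F, hF, hF'⟩ := coll_open hr hg
  exact ⟨F, hF, fun c a hc d' hd' => jet_indep (hF' c a hc) d' hd'⟩

end Pool.Agent.TH183.QI
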