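import Pool.Agent.TH183.QI.Count
import Pool.Agent.TH181.Nag.Move

/-! Independence of conditions on the interior lattice points of triangles: flattenings. -/

namespace Pool.Agent.TH183.QI

open Finset Pool.Agent.TH176.Nag Pool.Agent.TH181.NagM

/-- the formal properties of emptiness after `n` additional conditions on exponents -/
structure IndSys (P : ℕ → Set (ℤ × ℤ) → Prop) : Prop where
  mono : ∀ {n : ℕ} {S S' : Set (ℤ × ℤ)}, P n S' → S ⊆ S' → P n S
  le : ∀ {n n' : ℕ} {S : Set (ℤ × ℤ)}, P n S → n ≤ n' → P n' S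
  add : ∀ {n : ℕ} {S S' : Set (ℤ × ℤ)}, P n S → ∀ T : Finset (ℤ × ℤ), S' ⊆ S ∪ (↑T : Set (ℤ × ℤ)) →
    P (n + T.card) S'
  comap : ∀ {n : ℕ} {S S' : Set (ℤ × ℤ)}, P n S' → ∀ a b c d u v : ℤ, a * d - b * c ≠ 0 →
    (∀ m ∈ S, (a * m.1 + b * m.2 + u, c * m.1 + d * m.2 + v) ∈ S') → P n S
  sub : ∀ {n : ℕ} {S : Set (ℤ × ℤ)}, P n S → ∀ p q r s u v : ℤ, 0 < p * s - q * r →
    P n {m | ∃ n ∈ S, m = (p * n.1 + q * n.2 + u, r * n.1 + s * n.2 + v)}
  flat0 : ∀ {n : ℕ} {S S' : Set (ℤ × ℤ)} {N0 : ℕ}, (∀ m ∈ S, 0 ≤ m.2 + (N0 : ℤ)) →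
    (∀ (a : ℤ) (B : Finset ℤ), (∀ b ∈ B, ((a, b) : ℤ × ℤ) ∈ S) →
      ∀ k : ℕ, k < B.card → ((a, (k : ℤ)) : ℤ × ℤ) ∈ S') → P n S' → P n S
  chart : ∀ {n N t F : ℕ}, 3 ≤ N → P n (S3F N (t + 2) F) → P n (WPF N F)

/-- independence of `C` conditions on the exponents in `S` -/
def Ind (P : ℕ → Set (ℤ × ℤ) → Prop) (C : ℕ) (S : Set (ℤ × ℤ)) : Prop :=
  S.Finite ∧ C ≤ S.ncard ∧ P (S.ncard - C) S

variable {P : ℕ → Set (ℤ × ℤ) → Prop} {C : ℕ}

theorem Ind.mono (hP : IndSys P) {S S' : Set (ℤ × ℤ)} (h : Ind P C S) (hS : S ⊆ S') (hf : S'.Finite) :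
    Ind P C S' := by
  classical
  obtain ⟨h1, h2, h3⟩ := h
  have h4 := Set.ncard_le_ncard hS hf
  refine ⟨hf, h2.trans h4, ?_⟩
  have h5 : (S' \ S).ncard + S.ncard = S'.ncard := Set.ncard_sdiff_add_ncard_of_subset hS hf
  have hf' : (S' \ S).Finite := hf.subset Set.sdiff_subset
  have h6 := hP.add h3 hf'.toFinset (S' := S') (by
    intro m hm
    by_cases h : m ∈ S
    · exact Or.inl h
    · right
      rw [Set.Finite.coe_toFinset]
      exact ⟨hm, h⟩)
  have h7 : hf'.toFinset.card = (S' \ S).ncard := (Set.ncard_eq_toFinset_card _ hf').symm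
  rw [h7] at h6
  exact hP.le h6 (by omega)

/-- the unimodular substitutions -/
theorem Ind.umap (hP : IndSys P) {S S' : Set (ℤ × ℤ)} (h : Ind P C S') (a b c d u v : ℤ)
    (hdet : a * d - b * c = 1 ∨ a * d - b * c = -1) (hf : S.Finite)
    (hS : ∀ m : ℤ × ℤ, (a * m.1 + b * m.2 + u, c * m.1 + d * m.2 + v) ∈ S' → m ∈ S) : Ind P C S := by
  obtain ⟨h1, h2, h3⟩ := h
  have hd : (a * d - b * c) * (a * d - b * c) = 1 := by
    rcases hdet with h | h <;> rw [h] <;> norm_num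
  obtain ⟨δ, hδ⟩ : ∃ δ, δ = a * d - b * c := ⟨_, rfl⟩
  rw [← hδ] at hd
  let φ : ℤ × ℤ → ℤ × ℤ := fun m => (a * m.1 + b * m.2 + u, c * m.1 + d * m.2 + v)
  let ψ : ℤ × ℤ → ℤ × ℤ := fun m => (δ * (d * (m.1 - u) - b * (m.2 - v)), δ * (-c * (m.1 - u) + a * (m.2 - v)))
  have hφψ : ∀ m, φ (ψ m) = m := by
    intro m
    simp only [φ, ψ]
    ext
    · simp only
      linear_combination (m.1 - u) * hd - (m.1 - u) * δ * hδ
    · simp only
      linear_combination (m.2 - v) * hd - (m.2 - v) * δ * hδ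
  have hψφ : ∀ m, ψ (φ m) = m := by
    intro m
    simp only [φ, ψ]
    ext
    · simp only
      linear_combination m.1 * hd - m.1 * δ * hδ
    · simp only
      linear_combination m.2 * hd - m.2 * δ * hδ
  have hinj : Function.Injective φ := Function.LeftInverse.injective hψφ
  have hf2 : (φ ⁻¹' S').Finite := h1.preimage hinj.injOn
  have hc : (φ ⁻¹' S').ncard = S'.ncard := by
    apply Set.ncard_preimage_of_injective_subset_range hinj
    intro m _
    exact ⟨ψ m, hφψ m⟩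
  have h4 : Ind P C (φ ⁻¹' S') := by
    refine ⟨hf2, by rw [hc]; exact h2, ?_⟩
    rw [hc]
    refine hP.comap h3 a b c d u v ?_ (fun m hm => hm)
    rcases hdet with h | h <;> rw [h] <;> norm_num
  exact h4.mono hP (fun m hm => hS m hm) hf

/-- the flattening of a finite set -/
theorem Ind.flat0 (hP : IndSys P) {S S' : Set (ℤ × ℤ)} (hf : S.Finite) (h : Ind P C S')
    (hS : ∀ m ∈ S', 0 ≤ m.2 ∧ ∃ B : Finset ℤ, (∀ b ∈ B, ((m.1, b) : ℤ × ℤ) ∈ S) ∧ m.2 < B.card) :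
    Ind P C S := by
  classical
  obtain ⟨F, hF⟩ : ∃ F : Finset (ℤ × ℤ), (↑F : Set (ℤ × ℤ)) = S := ⟨hf.toFinset, hf.coe_toFinset⟩
  -- the fibres
  let fb : ℤ → Finset ℤ := fun a => (F.filter fun m => m.1 = a).image Prod.snd
  have hfb : ∀ a b, b ∈ fb a ↔ (a, b) ∈ F := by
    intro a b
    simp only [fb, mem_image, mem_filter]
    constructor
    · rintro ⟨m, ⟨h1, h2⟩, h3⟩
      have : m = (a, b) := by ext <;> simp [h2, h3]
      rwa [← this]
    · intro h
      exact ⟨(a, b), ⟨h, rfl⟩, rfl⟩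
  let A : Finset ℤ := F.image Prod.fst
  let G : Finset (ℤ × ℤ) := (A.sigma fun a => range (fb a).card).image fun p => (p.1, ((p.2 : ℕ) : ℤ))
  have hG : ∀ a : ℤ, ∀ k : ℤ, (a, k) ∈ G ↔ 0 ≤ k ∧ k < (fb a).card := by
    intro a k
    simp only [G, mem_image, mem_sigma, mem_range]
    constructor
    · rintro ⟨⟨a', k'⟩, ⟨h1, h2⟩, h3⟩
      simp only [Prod.mk.injEq] at h1 h2 h3
      obtain ⟨h4, h5⟩ := h3
      subst h4
      subst h5
      exact ⟨Int.natCast_nonneg _, by exact_mod_cast h2⟩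
    · rintro ⟨h1, h2⟩
      obtain ⟨k', rfl⟩ := Int.eq_ofNat_of_zero_le h1
      refine ⟨⟨a, k'⟩, ⟨?_, by exact_mod_cast h2⟩, rfl⟩
      have h3 : 0 < (fb a).card := by omega
      obtain ⟨b, hb⟩ := card_pos.1 h3
      rw [hfb] at hb
      exact mem_image.2 ⟨(a, b), hb, rfl⟩
  have hcard : G.card = F.card := by
    have e1 : G.card = ∑ a ∈ A, (fb a).card := by
      rw [card_image_of_injective, card_sigma]
      · simp only [card_range]
      · rintro ⟨a, k⟩ ⟨a', k'⟩ h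
        simp only [Prod.mk.injEq, Nat.cast_inj] at h
        obtain ⟨h1, h2⟩ := h
        subst h1
        subst h2
        rfl
    have e2 : F.card = ∑ a ∈ A, (fb a).card := by
      rw [card_eq_sum_card_fiberwise (f := Prod.fst) (t := A) (fun m hm => mem_image_of_mem _ hm)]
      refine sum_congr rfl fun a _ => ?_
      simp only [fb]
      rw [card_image_of_injOn]
      intro m hm m' hm' h
      simp only [coe_filter, Set.mem_ofPred_eq] at hm hm'
      ext
      · rw [hm.2, hm'.2]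
      · exact h
    rw [e1, e2]
  have hSG : S' ⊆ (↑G : Set (ℤ × ℤ)) := by
    rintro ⟨a, k⟩ hm
    obtain ⟨h1, B, hB, h2⟩ := hS _ hm
    rw [mem_coe, hG]
    refine ⟨h1, lt_of_lt_of_le h2 ?_⟩
    have : B ⊆ fb a := by
      intro b hb
      rw [hfb, ← mem_coe, hF]
      exact hB b hb
    exact_mod_cast card_le_card this
  obtain ⟨g1, g2, g3⟩ := h.mono hP hSG G.finite_toSet
  rw [Set.ncard_coe_finset] at g2 g3
  refine ⟨hf, ?_, ?_⟩
  · rw [← hF, Set.ncard_coe_finset, ← hcard]; exact g2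
  · rw [← hF, Set.ncard_coe_finset, ← hcard]
    obtain ⟨N0, hN0⟩ : ∃ N0 : ℕ, ∀ m ∈ F, 0 ≤ m.2 + (N0 : ℤ) := by
      refine ⟨F.sup fun m => (-m.2).toNat, fun m hm => ?_⟩
      have := le_sup (f := fun m : ℤ × ℤ => (-m.2).toNat) hm
      omega
    refine hP.flat0 (N0 := N0) (fun m hm => hN0 m (mem_coe.1 hm)) ?_ g3
    intro a B hB k hk
    rw [mem_coe, hG]
    refine ⟨Int.natCast_nonneg _, ?_⟩
    have : B ⊆ fb a := by
      intro b hb
      rw [hfb]
      exact hB b hb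
    have := card_le_card this
    omega

/-- the flattening along a primitive covector -/
theorem Ind.flat (hP : IndSys P) {S S' : Set (ℤ × ℤ)} (hf : S.Finite) (x y u v : ℤ)
    (hdet : x * u + y * v = 1) (h : Ind P C S')
    (hS : ∀ m ∈ S', 0 < m.2 ∧ ∃ B : Finset ℤ,
      (∀ T ∈ B, ((u * m.1 - y * T, v * m.1 + x * T) : ℤ × ℤ) ∈ S) ∧ m.2 ≤ B.card) :
    Ind P C S := by
  -- the shifted set
  have hf0 : {m : ℤ × ℤ | (m.1, m.2 + 1) ∈ S'}.Finite := by
    apply h.1.preimage (f := fun m : ℤ × ℤ => (m.1, m.2 + 1))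
    intro m _ m' _ h
    simp only [Prod.mk.injEq] at h
    ext <;> omega
  have h0 : Ind P C {m : ℤ × ℤ | (m.1, m.2 + 1) ∈ S'} := by
    refine h.umap hP 1 0 0 1 0 1 (by norm_num) hf0 ?_
    intro m hm
    have e : ((1 * m.1 + 0 * m.2 + 0, 0 * m.1 + 1 * m.2 + 1) : ℤ × ℤ) = (m.1, m.2 + 1) := by
      ext <;> simp
    rw [e] at hm
    exact hm
  have hf1 : {m : ℤ × ℤ | (u * m.1 - y * m.2, v * m.1 + x * m.2) ∈ S}.Finite := by
    apply hf.preimage (f := fun m : ℤ × ℤ => (u * m.1 - y * m.2, v * m.1 + x * m.2))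
    intro m _ m' _ h
    simp only [Prod.mk.injEq] at h
    obtain ⟨h1, h2⟩ := h
    ext
    · linear_combination x * h1 + y * h2 - (m.1 - m'.1) * hdet
    · linear_combination (-v) * h1 + u * h2 - (m.2 - m'.2) * hdet
  have h1 : Ind P C {m : ℤ × ℤ | (u * m.1 - y * m.2, v * m.1 + x * m.2) ∈ S} := by
    refine Ind.flat0 hP hf1 h0 ?_
    rintro ⟨a, k⟩ hm
    obtain ⟨g1, B, hB, hk⟩ := hS (a, k + 1) hm
    simp only at g1 hB hk ⊢
    refine ⟨by omega, B, ?_, by omega⟩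
    intro T hT
    exact hB T hT
  refine h1.umap hP x y (-v) u 0 0 (Or.inl (by rw [← hdet]; ring)) hf ?_
  intro m hm
  have e1 : u * (x * m.1 + y * m.2 + 0) - y * (-v * m.1 + u * m.2 + 0) = m.1 := by
    linear_combination m.1 * hdet
  have e2 : v * (x * m.1 + y * m.2 + 0) + x * (-v * m.1 + u * m.2 + 0) = m.2 := by
    linear_combination m.2 * hdet
  simp only [Set.mem_ofPred_eq] at hm
  rw [e1, e2] at hm
  exact hm

/-- open triangles -/
def IReg (α β μ ν : ℝ) : Set (ℤ × ℤ) :=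
  {m | 0 < m.2 ∧ α + μ * m.2 < m.1 ∧ (m.1 : ℝ) < β - ν * m.2}

theorem IReg_finite {α β μ ν : ℝ} (h : 0 < μ + ν) : (IReg α β μ ν).Finite := by
  obtain ⟨Y, hY⟩ : ∃ Y : ℤ, (β - α) / (μ + ν) ≤ Y := ⟨⌈(β - α) / (μ + ν)⌉, Int.le_ceil _⟩
  obtain ⟨X, hX⟩ : ∃ X : ℤ, |α| + |β| + (|μ| + |ν|) * |(Y : ℝ)| ≤ X := ⟨_, Int.le_ceil _⟩
  apply Set.Finite.subset (Set.finite_Icc ((-X, 0) : ℤ × ℤ) (X, Y))
  rintro ⟨a, b⟩ ⟨h1, h2, h3⟩
  simp only at h1 h2 h3
  have hb : (0 : ℝ) < b := by exact_mod_cast h1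
  have hbY : (b : ℝ) < Y := by
    have : (b : ℝ) < (β - α) / (μ + ν) := by
      rw [lt_div_iff₀ h]; nlinarith
    linarith
  have hY0 : (b : ℝ) ≤ |(Y : ℝ)| := hbY.le.trans (le_abs_self _)
  have k1 : |μ * b| ≤ |μ| * |(Y : ℝ)| := by
    rw [abs_mul, abs_of_pos hb]
    exact mul_le_mul_of_nonneg_left hY0 (abs_nonneg _)
  have k2 : |ν * b| ≤ |ν| * |(Y : ℝ)| := by
    rw [abs_mul, abs_of_pos hb]
    exact mul_le_mul_of_nonneg_left hY0 (abs_nonneg _)
  have k3 := abs_le.1 k1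
  have k4 := abs_le.1 k2
  have k5 := neg_abs_le α
  have k6 := le_abs_self β
  have k7 := le_abs_self α
  have k8 := neg_abs_le β
  have p1 : 0 ≤ |μ| * |(Y : ℝ)| := by positivity
  have p2 : 0 ≤ |ν| * |(Y : ℝ)| := by positivity
  have p3 := abs_nonneg α
  have p4 := abs_nonneg β
  rw [Set.mem_Icc, Prod.mk_le_mk, Prod.mk_le_mk]
  refine ⟨⟨?_, h1.le⟩, ?_, ?_⟩
  · have : (-X : ℝ) ≤ a := by linarith [k3.1]
    exact_mod_cast this
  · have : (a : ℝ) ≤ X := by linarith [k4.1]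
    exact_mod_cast this
  · exact_mod_cast hbY.le

theorem Ind.mirror (hP : IndSys P) {α β μ ν : ℝ} (hn : 0 < μ + ν) (h : Ind P C (IReg (-β) (-α) ν μ)) :
    Ind P C (IReg α β μ ν) := by
  refine h.umap hP (-1) 0 0 1 0 0 (by norm_num) (IReg_finite hn) ?_
  rintro ⟨a, b⟩ ⟨h1, h2, h3⟩
  simp only at h1 h2 h3
  push_cast at h1 h2 h3
  refine ⟨by simpa using h1, ?_, ?_⟩
  · simp only; linarith
  · simp only; linarith

theorem Ind.shear (hP : IndSys P) {α β μ ν : ℝ} (hn : 0 < μ + ν) (k : ℤ)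
    (h : Ind P C (IReg α β (μ + k) (ν - k))) : Ind P C (IReg α β μ ν) := by
  refine h.umap hP 1 k 0 1 0 0 (by norm_num) (IReg_finite hn) ?_
  rintro ⟨a, b⟩ ⟨h1, h2, h3⟩
  simp only at h1 h2 h3
  push_cast at h1 h2 h3
  refine ⟨by simpa using h1, ?_, ?_⟩
  · simp only; linarith
  · simp only; linarith

/-- the top vertex takes the largest value -/
theorem Ind.regA (hP : IndSys P) {α β μ ν : ℝ} (x y u v : ℤ) (hdet : x * u + y * v = 1) (hx : 0 ≤ x)
    (h1 : 0 ≤ x * μ + y) (h2 : x * ν ≤ y) (hn : 0 < μ + ν) {α' β' μ' ν' : ℝ}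
    (hα : α' = x * α) (hβ : β' * (μ + ν) = -(y - x * ν) * α + (y + x * μ) * β)
    (hμ : μ' = x * (x * μ + y)) (hν : ν' * (μ + ν) = (y - x * ν) * (y + x * μ))
    (h : Ind P C (IReg α' β' μ' ν')) : Ind P C (IReg α β μ ν) := by
  have hx' : (0 : ℝ) ≤ x := by exact_mod_cast hx
  have hdet' : (x : ℝ) * u + y * v = 1 := by exact_mod_cast hdet
  have hy : 0 < (x : ℝ) * μ + y := by
    rcases h1.lt_or_eq with h3 | h3
    · exact h3
    · exfalso
      have h4 : (x : ℝ) * (μ + ν) ≤ 0 := by linarith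
      have h5 : (x : ℝ) = 0 := by
        rcases hx'.lt_or_eq with h6 | h6
        · have := mul_pos h6 hn
          linarith
        · exact h6.symm
      have h6 : (y : ℝ) = 0 := by rw [h5] at h3; linarith
      rw [h5, h6] at hdet'
      norm_num at hdet'
  refine h.flat hP (IReg_finite hn) x y u v hdet ?_
  rintro ⟨A, k⟩ ⟨hk, hl, hr⟩
  simp only at hk hl hr ⊢
  refine ⟨hk, ?_⟩
  obtain ⟨hi, hhi⟩ : ∃ hi : ℝ, hi = (u * A - α - μ * (v * A)) / (x * μ + y) := ⟨_, rfl⟩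
  have hhi' : hi * (x * μ + y) = u * A - α - μ * (v * A) := by
    rw [hhi, div_mul_cancel₀ _ hy.ne']
  refine ⟨Finset.Icc (⌈hi⌉ - k) (⌈hi⌉ - 1), ?_, ?_⟩
  · intro T hT
    rw [Finset.mem_Icc] at hT
    have t1 : (T : ℝ) < hi := by
      have : (T : ℝ) + 1 ≤ ⌈hi⌉ := by exact_mod_cast (by omega : T + 1 ≤ ⌈hi⌉)
      have := Int.ceil_lt_add_one hi
      linarith
    have t2 : hi - k ≤ T := by
      have : (⌈hi⌉ : ℝ) - k ≤ T := by exact_mod_cast hT.1
      have := Int.le_ceil hi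
      linarith
    refine ⟨?_, ?_, ?_⟩
    · -- 0 < v A + x T
      simp only
      have e1 : (v * A + x * (hi - k)) * (x * μ + y) = A - (α' + μ' * k) := by
        rw [hα, hμ]
        linear_combination x * hhi' + A * hdet'
      have e2 : 0 < (v * A + x * (hi - k)) * (x * μ + y) := by rw [e1]; linarith
      have e3 : 0 < v * A + x * (hi - k) := (mul_pos_iff_of_pos_right hy).1 e2
      have e4 : (x : ℝ) * (hi - k) ≤ x * T := mul_le_mul_of_nonneg_left t2 hx'
      have e5 : (0 : ℝ) < v * A + x * T := by linarith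
      exact_mod_cast e5
    · simp only
      push_cast
      have e4 : (x * μ + y) * T < (x * μ + y) * hi := mul_lt_mul_of_pos_left t1 hy
      nlinarith
    · simp only
      push_cast
      have e1 : (β - ν * (v * A) - u * A + (y - x * ν) * (hi - k)) * (x * μ + y) =
          (μ + ν) * (β' - ν' * k - A) := by
        linear_combination (y - x * ν) * hhi' - hβ + k * hν - A * (μ + ν) * hdet'
      have e2 : 0 < (β - ν * (v * A) - u * A + (y - x * ν) * (hi - k)) * (x * μ + y) := by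
        rw [e1]
        exact mul_pos hn (by linarith)
      have e3 := (mul_pos_iff_of_pos_right hy).1 e2
      have e4 : (y - x * ν) * (hi - k) ≤ (y - x * ν) * T := mul_le_mul_of_nonneg_left t2 (by linarith)
      nlinarith
  · rw [Int.card_Icc]
    omega

/-- the top vertex takes the middle value -/
theorem Ind.regC (hP : IndSys P) {α β μ ν : ℝ} (x y u v : ℤ) (hdet : x * u + y * v = 1) (hx : 0 ≤ x)
    (h1 : 0 ≤ x * μ + y) (h2 : (y : ℝ) ≤ x * ν) (hn : 0 < μ + ν) {α' β' μ' ν' : ℝ}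
    (hα : α' = x * α) (hβ : β' = x * β)
    (hμ : μ' = x * (x * μ + y)) (hν : ν' = x * (x * ν - y))
    (h : Ind P C (IReg α' β' μ' ν')) : Ind P C (IReg α β μ ν) := by
  have hdet' : (x : ℝ) * u + y * v = 1 := by exact_mod_cast hdet
  have hx0 : (0 : ℝ) < x := by
    have hx' : (0 : ℝ) ≤ x := by exact_mod_cast hx
    rcases hx'.lt_or_eq with h3 | h3
    · exact h3
    · exfalso
      rw [← h3] at h1 h2 hdet'
      have : (y : ℝ) = 0 := by linarith
      rw [this] at hdet'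
      norm_num at hdet'
  refine h.flat hP (IReg_finite hn) x y u v hdet ?_
  rintro ⟨A, k⟩ ⟨hk, hl, hr⟩
  simp only at hk hl hr ⊢
  refine ⟨hk, ?_⟩
  obtain ⟨lo, hlo⟩ : ∃ lo : ℝ, lo = -(v * A) / x := ⟨_, rfl⟩
  have hlo' : lo * x = -(v * A) := by
    rw [hlo, div_mul_cancel₀ _ hx0.ne']
  refine ⟨Finset.Icc (⌊lo⌋ + 1) (⌊lo⌋ + k), ?_, ?_⟩
  · intro T hT
    rw [Finset.mem_Icc] at hT
    have t1 : lo < T := by
      have : (⌊lo⌋ : ℝ) + 1 ≤ T := by exact_mod_cast hT.1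
      have := Int.lt_floor_add_one lo
      linarith
    have t2 : (T : ℝ) ≤ lo + k := by
      have : (T : ℝ) ≤ ⌊lo⌋ + k := by exact_mod_cast hT.2
      have := Int.floor_le lo
      linarith
    refine ⟨?_, ?_, ?_⟩
    · simp only
      have e5 : (0 : ℝ) < v * A + x * T := by
        have := mul_lt_mul_of_pos_right t1 hx0
        linarith
      exact_mod_cast e5
    · simp only
      push_cast
      have e1 : (u * A - α - μ * (v * A) - (x * μ + y) * (lo + k)) * x = A - (α' + μ' * k) := by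
        rw [hα, hμ]
        linear_combination (-(x * μ + y)) * hlo' + A * hdet'
      have e2 : 0 < (u * A - α - μ * (v * A) - (x * μ + y) * (lo + k)) * x := by rw [e1]; linarith
      have e3 := (mul_pos_iff_of_pos_right hx0).1 e2
      have e4 : (x * μ + y) * T ≤ (x * μ + y) * (lo + k) := mul_le_mul_of_nonneg_left t2 h1
      nlinarith
    · simp only
      push_cast
      have e1 : (β - ν * (v * A) - u * A - (x * ν - y) * (lo + k)) * x = β' - ν' * k - A := by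
        rw [hβ, hν]
        linear_combination (-(x * ν - y)) * hlo' - A * hdet'
      have e2 : 0 < (β - ν * (v * A) - u * A - (x * ν - y) * (lo + k)) * x := by rw [e1]; linarith
      have e3 := (mul_pos_iff_of_pos_right hx0).1 e2
      have e4 : (x * ν - y) * T ≤ (x * ν - y) * (lo + k) := mul_le_mul_of_nonneg_left t2 (by linarith)
      nlinarith
  · rw [Int.card_Icc]
    omega

end Pool.Agent.TH183.QI
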