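import Pool.Agent.TH183.QI.Coll
import Pool.Agent.TH183.QN.Two

/-! Vanishing for general collisions in all degrees `d < m √r`. -/

namespace Pool.Agent.TH183.QI

open Finset Polynomial Pool.Agent.H932R2 Pool.Agent.H932R3 Pool.Agent.TH181.NagM
open Pool.Agent.TH183.QN (EmpW TT empW_TT Mv_two)

universe u

/-- vanishing in low degrees -/
theorem coll_noForm {r m d : ℕ} (hr : 0 < r)
    (h : EmpW (fun _ : Unit => (r : ℝ)) (fun _ => (r * m : ℝ)) (TT d)) (L : Type u) [Field L] [CharZero L] :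
    ∃ F : MvPolynomial (Fin (r + 1)) L, F ≠ 0 ∧
      ∀ (c : L) (a : Fin r → L), MvPolynomial.eval (Fin.cons c a : Fin (r + 1) → L) F ≠ 0 →
        ∀ d' ≤ d, NoForm (jetIdeal m c a) d' := by
  obtain ⟨g, hg⟩ := EmpF.rk (N := (d + 2).choose 2) hr (le_of_eq (add_zero _)) (EmpF.of_empW h) L
  have h1 : (d + 2).choose 2 = (Tfin d).card := by
    have h4 := card_Tfin d
    have h5 : (d + 2).choose 2 * 2 = (d + 2) * (d + 1) := by
      rw [Nat.choose_two_right, Nat.div_mul_cancel (Nat.even_mul_pred_self _).two_dvd]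
      rfl
    linarith
  rw [h1] at hg
  obtain ⟨F, hF, hF'⟩ := coll_open hr hg
  exact ⟨F, hF, fun c a hc d' hd' => (NoForm.of_rk (hF' c a hc)).mono hd'⟩

theorem coll_vanish {r : ℕ} (hr : 0 < r) (hM : Mv 0 1 0 r) (m : ℕ) (L : Type u) [Field L] [CharZero L] :
    ∃ F : MvPolynomial (Fin (r + 1)) L, F ≠ 0 ∧
      ∀ (c : L) (a : Fin r → L), MvPolynomial.eval (Fin.cons c a : Fin (r + 1) → L) F ≠ 0 →
        ∀ d : ℕ, (d : ℝ) < m * √r → NoForm (jetIdeal m c a) d ∧ JetDim r m c a d := by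
  have hr0 : (0 : ℝ) < r := by exact_mod_cast hr
  have hs : 0 < √(r : ℝ) := Real.sqrt_pos.2 hr0
  have hss : √(r : ℝ) * √r = r := Real.mul_self_sqrt hr0.le
  rcases Nat.eq_zero_or_pos m with hm | hm
  · subst hm
    refine ⟨1, one_ne_zero, fun c a _ d hd => ?_⟩
    rw [Nat.cast_zero, zero_mul] at hd
    exact absurd hd (not_lt.2 (Nat.cast_nonneg d))
  · have hmR : (0 : ℝ) < m := by exact_mod_cast hm
    obtain ⟨d0, hd0, hd1⟩ : ∃ d0 : ℕ, (d0 : ℝ) < m * √r ∧ ∀ d : ℕ, (d : ℝ) < m * √r → d ≤ d0 := by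
      refine ⟨⌈m * √(r : ℝ)⌉₊ - 1, ?_, fun d hd => ?_⟩
      · have h1 : 0 < ⌈m * √(r : ℝ)⌉₊ := Nat.ceil_pos.2 (by positivity)
        have h2 : (⌈m * √(r : ℝ)⌉₊ : ℝ) < m * √r + 1 := Nat.ceil_lt_add_one (by positivity)
        rw [Nat.cast_sub h1, Nat.cast_one]
        linarith
      · have h1 : d < ⌈m * √(r : ℝ)⌉₊ := Nat.lt_ceil.2 hd
        omega
    have h := empW_TT (B := (r : ℝ) * m) hr0 hM (d := d0) (by
      calc (d0 : ℝ) * √r < m * √r * √r := mul_lt_mul_of_pos_right hd0 hs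
        _ = r * m := by rw [mul_assoc, hss]; ring)
    obtain ⟨F, hF, hF'⟩ := coll_zero hr h L
    obtain ⟨G, hG, hG'⟩ := coll_noForm hr h L
    refine ⟨F * G, mul_ne_zero hF hG, fun c a hc d hd => ?_⟩
    rw [map_mul] at hc
    exact ⟨hG' c a (right_ne_zero_of_mul hc) d (hd1 d hd), hF' c a (left_ne_zero_of_mul hc) d (hd1 d hd)⟩

end Pool.Agent.TH183.QI
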